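import Mathlib
set_option autoImplicit false
open MvPolynomial

namespace Pool.Agent.Helper367.G5

abbrev A := MvPolynomial (Fin 2) ℂ

/-- directional derivative of `f` at `p` in direction `ξ` -/
noncomputable def D (f : A) (p ξ : Fin 2 → ℂ) : ℂ := ∑ j, ξ j * eval p (pderiv j f)

/-- Jacobian `{t, x}` -/
noncomputable def Jac (t x : A) : A := pderiv 0 t * pderiv 1 x - pderiv 1 t * pderiv 0 x

/-- `{t,x_i}` and `{t,x_j}` are linearly independent over ℂ for some i, j -/
def P1 (x : Fin 4 → A) (t : A) : Prop :=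
  ∃ i j, ∀ u v : ℂ, C u * Jac t (x i) + C v * Jac t (x j) = 0 → u = 0 ∧ v = 0

/-- the modified coordinates -/
noncomputable def xm (x : Fin 4 → A) (t : A) (a b e : Fin 4 → ℂ) (i : Fin 4) : A :=
  x i + C (a i) * t + C (b i) * t ^ 2 + C (e i) * t ^ 3

def P2 (x : Fin 4 → A) (t : A) : Prop :=
  ∀ a b e : Fin 4 → ℂ, IsIntegral (Algebra.adjoin ℂ (Set.range (xm x t a b e))) t

def Sep (x : Fin 4 → A) (t : A) : Prop :=
  ∀ p q : Fin 2 → ℂ, (∀ i, eval p (x i) = eval q (x i)) → eval p t = eval q t → p = q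

def Imm (x : Fin 4 → A) (t : A) : Prop :=
  ∀ p ξ : Fin 2 → ℂ, (∀ i, D (x i) p ξ = 0) → D t p ξ = 0 → ξ = 0

/-- coefficients in `K` -/
def Over (K : Type) [Field K] [Algebra K ℂ] (f : A) : Prop :=
  ∃ g : MvPolynomial (Fin 2) K, map (algebraMap K ℂ) g = f

theorem tr1 {K : Type} [Field K] [Algebra K ℂ] {ι κ : Type} [Fintype ι] [Fintype κ] (a : ι → ℂ)
    (ha : AlgebraicIndependent K a) (s : κ → ℂ)
    (h : ∀ i, IsAlgebraic (IntermediateField.adjoin K (Set.range s)) (a i)) :
    Fintype.card ι ≤ Fintype.card κ := by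
  have hI : (AlgebraicIndependent.matroid K ℂ).Indep (Set.range a) :=
    AlgebraicIndependent.matroid_indep_iff.mpr ha.to_subtype_range
  have hsub : Set.range a ⊆ (AlgebraicIndependent.matroid K ℂ).closure (Set.range s) := by
    rw [AlgebraicIndependent.matroid_closure_eq]
    rintro _ ⟨i, rfl⟩
    exact IntermediateField.isAlgebraic_adjoin_iff.mp (h i)
  have h1 : (Set.range a).encard ≤ (Set.range s).encard := by
    refine (hI.encard_le_eRk_of_subset hsub).trans ?_
    rw [Matroid.eRk_closure_eq]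
    exact Matroid.eRk_le_encard _ _
  have h2 : (Set.range a).ncard = Fintype.card ι := by
    rw [← Set.image_univ, Set.ncard_image_of_injective _ ha.injective, Set.ncard_univ, Nat.card_eq_fintype_card]
  have h3 : (Set.range s).ncard ≤ Fintype.card κ := by
    rw [← Set.image_univ]
    refine (Set.ncard_image_le (Set.toFinite _)).trans ?_
    rw [Set.ncard_univ, Nat.card_eq_fintype_card]
  have h4 : (Set.range a).ncard ≤ (Set.range s).ncard := by
    rw [← Set.Finite.cast_ncard_eq (Set.finite_range a), ← Set.Finite.cast_ncard_eq (Set.finite_range s)] at h1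
    exact_mod_cast h1
  omega
theorem tr2 {K : Type} [Field K] [Algebra K ℂ] {ι κ : Type} [Fintype ι] [Fintype κ] (a : ι → ℂ)
    (ha : AlgebraicIndependent K a) (s : κ → ℂ)
    (h : ∀ i, IsAlgebraic (IntermediateField.adjoin K (Set.range s)) (a i))
    (hc : Fintype.card κ = Fintype.card ι) :
    ∀ k, IsAlgebraic (IntermediateField.adjoin K (Set.range a)) (s k) := by
  intro k
  by_contra hk
  have htr : Transcendental (Algebra.adjoin K (Set.range a)) (s k) := by
    intro halg
    apply hk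
    obtain ⟨p, hp0, hp⟩ := halg
    have hle : Algebra.adjoin K (Set.range a) ≤
        (IntermediateField.adjoin K (Set.range a)).toSubalgebra :=
      IntermediateField.algebra_adjoin_le_adjoin K (Set.range a)
    let φ : ↥(Algebra.adjoin K (Set.range a)) →+* ↥(IntermediateField.adjoin K (Set.range a)) :=
      (Subalgebra.inclusion hle).toRingHom
    have hφ : Function.Injective φ := Subalgebra.inclusion_injective hle
    refine ⟨p.map φ, (Polynomial.map_ne_zero_iff hφ).2 hp0, ?_⟩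
    rw [Polynomial.aeval_def, Polynomial.eval₂_map]
    rw [Polynomial.aeval_def] at hp
    exact hp
  have hopt := (ha.option_iff_transcendental (s k)).2 htr
  have h2 := tr1 _ hopt s (by
    intro o
    rcases o with _ | i
    · have hmem : s k ∈ IntermediateField.adjoin K (Set.range s) :=
        IntermediateField.subset_adjoin K _ ⟨k, rfl⟩
      exact isAlgebraic_algebraMap (⟨s k, hmem⟩ : IntermediateField.adjoin K (Set.range s))
    · exact h i)
  rw [Fintype.card_option] at h2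
  omega
theorem tr3 {K : Type} [Field K] [Algebra K ℂ] (s : Fin 4 → ℂ) (hs : ¬ AlgebraicIndependent K s) :
    ∃ s' : Fin 3 → ℂ, ∀ k, IsAlgebraic (IntermediateField.adjoin K (Set.range s')) (s k) := by
  classical
  have h1 : ∃ t : Set (Fin 4), ∃ i, i ∉ t ∧ IsAlgebraic (Algebra.adjoin K (s '' t)) (s i) := by
    by_contra hcon
    push Not at hcon
    exact hs (algebraicIndependent_of_finite_type' (algebraMap K ℂ).injective
      (fun t _ _ i hi => hcon t i hi))
  obtain ⟨t, i, hit, hi⟩ := h1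
  refine ⟨fun j => s (i.succAbove j), fun k => ?_⟩
  by_cases hk : k = i
  · subst hk
    have hle : ∀ y ∈ Algebra.adjoin K (s '' t),
        y ∈ IntermediateField.adjoin K (Set.range fun j => s (k.succAbove j)) := by
      intro y hy
      have h2 : Algebra.adjoin K (s '' t) ≤
          (IntermediateField.adjoin K (Set.range fun j => s (k.succAbove j))).toSubalgebra := by
        rw [Algebra.adjoin_le_iff]
        rintro _ ⟨j, hj, rfl⟩
        have hjk : j ≠ k := fun h => hit (h ▸ hj)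
        obtain ⟨l, rfl⟩ := Fin.exists_succAbove_eq hjk
        exact IntermediateField.subset_adjoin K _ ⟨l, rfl⟩
      exact h2 hy
    obtain ⟨p, hp0, hp⟩ := hi
    let φ : Algebra.adjoin K (s '' t) →+*
        IntermediateField.adjoin K (Set.range fun j => s (k.succAbove j)) :=
      { toFun := fun y => ⟨y.1, hle y.1 y.2⟩
        map_one' := rfl
        map_mul' := fun _ _ => rfl
        map_zero' := rfl
        map_add' := fun _ _ => rfl }
    have hφ : Function.Injective φ := by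
      intro a b hab
      have := congrArg Subtype.val hab
      exact Subtype.ext this
    refine ⟨p.map φ, ?_, ?_⟩
    · intro h0
      exact hp0 ((Polynomial.map_eq_zero_iff hφ).mp h0)
    · rw [Polynomial.aeval_def, Polynomial.eval₂_map]
      rw [Polynomial.aeval_def] at hp
      exact hp
  · obtain ⟨l, rfl⟩ := Fin.exists_succAbove_eq hk
    have hm : s (i.succAbove l) ∈ IntermediateField.adjoin K (Set.range fun j => s (i.succAbove j)) :=
      IntermediateField.subset_adjoin K _ ⟨l, rfl⟩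
    exact isAlgebraic_algebraMap
      (⟨s (i.succAbove l), hm⟩ : IntermediateField.adjoin K (Set.range fun j => s (i.succAbove j)))
theorem ev_mem {K : Type} [Field K] [Algebra K ℂ] (L : IntermediateField K ℂ) (f : A) (hf : Over K f)
    (p : Fin 2 → ℂ) (hp : ∀ j, p j ∈ L) : eval p f ∈ L := by
  obtain ⟨g, rfl⟩ := hf
  rw [eval_map]
  induction g using MvPolynomial.induction_on with
  | C a => rw [eval₂_C]; exact L.algebraMap_mem a
  | add f g hf hg => rw [eval₂_add]; exact L.add_mem hf hg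
  | mul_X f j hf => rw [eval₂_mul, eval₂_X]; exact L.mul_mem hf (hp j)

theorem over_pderiv {K : Type} [Field K] [Algebra K ℂ] (f : A) (hf : Over K f) (j : Fin 2) :
    Over K (pderiv j f) := by
  obtain ⟨g, rfl⟩ := hf
  exact ⟨pderiv j g, (pderiv_map).symm⟩

theorem D_mem {K : Type} [Field K] [Algebra K ℂ] (L : IntermediateField K ℂ) (f : A) (hf : Over K f)
    (p ξ : Fin 2 → ℂ) (hp : ∀ j, p j ∈ L) (hξ : ∀ j, ξ j ∈ L) : D f p ξ ∈ L := by
  unfold D
  exact L.sum_mem fun j _ => L.mul_mem (hξ j) (ev_mem L _ (over_pderiv f hf j) p hp)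

theorem eval_xm (x : Fin 4 → A) (t : A) (a b e : Fin 4 → ℂ) (i : Fin 4) (p : Fin 2 → ℂ) :
    eval p (xm x t a b e i) = eval p (x i) + a i * eval p t + b i * eval p t ^ 2 + e i * eval p t ^ 3 := by
  unfold xm
  simp only [map_add, map_mul, map_pow, eval_C]

theorem D_xm (x : Fin 4 → A) (t : A) (a b e : Fin 4 → ℂ) (i : Fin 4) (p ξ : Fin 2 → ℂ) :
    D (xm x t a b e i) p ξ = D (x i) p ξ +
      (a i + 2 * b i * eval p t + 3 * e i * eval p t ^ 2) * D t p ξ := by
  unfold D xm
  simp only [map_add, Derivation.leibniz, Derivation.leibniz_pow, pderiv_C, smul_eq_mul, map_mul, map_pow,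
    eval_C, map_zero, nsmul_eq_mul, map_natCast, mul_zero, add_zero, Fin.sum_univ_two]
  push_cast
  ring

theorem D_smul (f : A) (p ξ : Fin 2 → ℂ) (c : ℂ) : D f p (c • ξ) = c * D f p ξ := by
  unfold D
  rw [Finset.mul_sum]
  refine Finset.sum_congr rfl fun j _ => ?_
  simp only [Pi.smul_apply, smul_eq_mul]
  ring
theorem gb_aux {K : Type} [Field K] [Algebra K ℂ] (x : Fin 4 → A) (t : A) (hx : ∀ i, Over K (x i)) (ht : Over K t)
    (a b e : Fin 4 → ℂ) (hind : AlgebraicIndependent K (Sum.elim a (Sum.elim b e)))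
    (p ξ : Fin 2 → ℂ) (hξ1 : D t p ξ = 1) (h : ∀ i, D (xm x t a b e i) p ξ = 0) (s3 : ℂ)
    (hs3 : ∀ L : IntermediateField K ℂ, (∀ j, p j ∈ L) → s3 ∈ L → ∀ j, ξ j ∈ L) : False := by
  let s : Fin 4 ⊕ (Fin 4 ⊕ Fin 3) → ℂ := Sum.elim b (Sum.elim e ![p 0, p 1, s3])
  set L : IntermediateField K ℂ := IntermediateField.adjoin K (Set.range s) with hL
  have hs : ∀ k, s k ∈ L := fun k => IntermediateField.subset_adjoin K _ ⟨k, rfl⟩
  have hb : ∀ i, b i ∈ L := fun i => hs (Sum.inl i)
  have he : ∀ i, e i ∈ L := fun i => hs (Sum.inr (Sum.inl i))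
  have hp : ∀ j, p j ∈ L := by
    intro j
    fin_cases j
    · exact hs (Sum.inr (Sum.inr 0))
    · exact hs (Sum.inr (Sum.inr 1))
  have h3 : s3 ∈ L := hs (Sum.inr (Sum.inr 2))
  have hξ := hs3 L hp h3
  have hτ : eval p t ∈ L := ev_mem L t ht p hp
  have hDx : ∀ i, D (x i) p ξ ∈ L := fun i => D_mem L (x i) (hx i) p ξ hp hξ
  have h2 : (2 : ℂ) ∈ L := by exact_mod_cast natCast_mem L 2
  have h3' : (3 : ℂ) ∈ L := by exact_mod_cast natCast_mem L 3
  have ha : ∀ i, a i ∈ L := by
    intro i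
    have h4 := h i
    rw [D_xm, hξ1, mul_one] at h4
    have h5 : a i = -(D (x i) p ξ) - 2 * b i * eval p t - 3 * e i * eval p t ^ 2 := by
      linear_combination h4
    rw [h5]
    exact L.sub_mem (L.sub_mem (L.neg_mem (hDx i)) (L.mul_mem (L.mul_mem h2 (hb i)) hτ))
      (L.mul_mem (L.mul_mem h3' (he i)) (pow_mem hτ 2))
  have hcard := tr1 (Sum.elim a (Sum.elim b e)) hind s (by
    intro k
    have hk : Sum.elim a (Sum.elim b e) k ∈ L := by
      rcases k with k | k | k
      · exact ha k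
      · exact hb k
      · exact he k
    exact isAlgebraic_algebraMap (⟨_, hk⟩ : L))
  simp at hcard

theorem g_b {K : Type} [Field K] [Algebra K ℂ] (x : Fin 4 → A) (t : A) (hx : ∀ i, Over K (x i)) (ht : Over K t)
    (a b e : Fin 4 → ℂ) (hind : AlgebraicIndependent K (Sum.elim a (Sum.elim b e)))
    (himm : Imm x t) (p ξ : Fin 2 → ℂ) (h : ∀ i, D (xm x t a b e i) p ξ = 0) : ξ = 0 := by
  by_contra hξ0
  by_cases hc : D t p ξ = 0
  · apply hξ0
    refine himm p ξ (fun i => ?_) hc
    have := h i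
    rw [D_xm, hc, mul_zero, add_zero] at this
    exact this
  · set c := D t p ξ with hcd
    have h1 : D t p (c⁻¹ • ξ) = 1 := by
      rw [D_smul, ← hcd, inv_mul_cancel₀ hc]
    have h2 : ∀ i, D (xm x t a b e i) p (c⁻¹ • ξ) = 0 := by
      intro i
      rw [D_smul, h i, mul_zero]
    set η := c⁻¹ • ξ with hη
    have hT : ∀ (L : IntermediateField K ℂ), (∀ j, p j ∈ L) → ∀ j, eval p (pderiv j t) ∈ L :=
      fun L hp j => ev_mem L _ (over_pderiv t ht j) p hp
    have h3 : η 0 * eval p (pderiv 0 t) + η 1 * eval p (pderiv 1 t) = 1 := by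
      have := h1
      unfold D at this
      rwa [Fin.sum_univ_two] at this
    by_cases hT0 : eval p (pderiv 0 t) = 0
    · have hT1 : eval p (pderiv 1 t) ≠ 0 := by
        intro h0
        rw [hT0, h0] at h3
        simp at h3
      refine gb_aux x t hx ht a b e hind p η h1 h2 (η 0) ?_
      intro L hp hs j
      have e1 : η 1 = (1 - η 0 * eval p (pderiv 0 t)) / eval p (pderiv 1 t) := by
        rw [eq_div_iff hT1]
        linear_combination h3
      fin_cases j
      · exact hs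
      · show η 1 ∈ L
        rw [e1]
        exact L.div_mem (L.sub_mem L.one_mem (L.mul_mem hs (hT L hp 0))) (hT L hp 1)
    · refine gb_aux x t hx ht a b e hind p η h1 h2 (η 1) ?_
      intro L hp hs j
      have e1 : η 0 = (1 - η 1 * eval p (pderiv 1 t)) / eval p (pderiv 0 t) := by
        rw [eq_div_iff hT0]
        linear_combination h3
      fin_cases j
      · show η 0 ∈ L
        rw [e1]
        exact L.div_mem (L.sub_mem L.one_mem (L.mul_mem hs (hT L hp 1))) (hT L hp 0)
      · exact hs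
theorem g_c {K : Type} [Field K] [Algebra K ℂ] (x : Fin 4 → A) (t : A) (hx : ∀ i, Over K (x i)) (ht : Over K t)
    (a b e : Fin 4 → ℂ) (hind : AlgebraicIndependent K (Sum.elim a (Sum.elim b e)))
    (hsep : Sep x t) (p q r : Fin 2 → ℂ) (hpq : p ≠ q) (hpr : p ≠ r) (hqr : q ≠ r)
    (h1 : ∀ i, eval p (xm x t a b e i) = eval q (xm x t a b e i))
    (h2 : ∀ i, eval p (xm x t a b e i) = eval r (xm x t a b e i)) : False := by
  have tne : ∀ p q : Fin 2 → ℂ, p ≠ q →
      (∀ i, eval p (xm x t a b e i) = eval q (xm x t a b e i)) → eval p t ≠ eval q t := by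
    intro p q hpq h1 ht'
    apply hpq
    apply hsep p q _ ht'
    intro i
    have h3 := h1 i
    rw [eval_xm, eval_xm, ht'] at h3
    linear_combination h3
  have hPQ : eval p t - eval q t ≠ 0 := sub_ne_zero.mpr (tne p q hpq h1)
  have hPR : eval p t - eval r t ≠ 0 := sub_ne_zero.mpr (tne p r hpr h2)
  have hQR : eval q t - eval r t ≠ 0 :=
    sub_ne_zero.mpr (tne q r hqr (fun i => (h1 i).symm.trans (h2 i)))
  set s : Fin 4 ⊕ (Fin 2 ⊕ (Fin 2 ⊕ Fin 2)) → ℂ := Sum.elim e (Sum.elim p (Sum.elim q r)) with hs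
  set L : IntermediateField K ℂ := IntermediateField.adjoin K (Set.range s) with hL
  have hmem : ∀ k, s k ∈ L := fun k => IntermediateField.subset_adjoin K _ ⟨k, rfl⟩
  have he : ∀ i, e i ∈ L := fun i => hmem (Sum.inl i)
  have hp : ∀ i, p i ∈ L := fun i => hmem (Sum.inr (Sum.inl i))
  have hq : ∀ i, q i ∈ L := fun i => hmem (Sum.inr (Sum.inr (Sum.inl i)))
  have hr : ∀ i, r i ∈ L := fun i => hmem (Sum.inr (Sum.inr (Sum.inr i)))
  have hP : eval p t ∈ L := ev_mem L t ht p hp
  have hQ : eval q t ∈ L := ev_mem L t ht q hq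
  have hR : eval r t ∈ L := ev_mem L t ht r hr
  have hXp : ∀ i, eval p (x i) ∈ L := fun i => ev_mem L (x i) (hx i) p hp
  have hXq : ∀ i, eval q (x i) ∈ L := fun i => ev_mem L (x i) (hx i) q hq
  have hXr : ∀ i, eval r (x i) ∈ L := fun i => ev_mem L (x i) (hx i) r hr
  have hd1 : ∀ i, a i + b i * (eval p t + eval q t) ∈ L := by
    intro i
    have h3 := h1 i
    rw [eval_xm, eval_xm] at h3
    have h4 : a i + b i * (eval p t + eval q t) =
        (eval q (x i) - eval p (x i) + e i * (eval q t ^ 3 - eval p t ^ 3)) /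
          (eval p t - eval q t) := by
      rw [eq_div_iff hPQ]
      linear_combination h3
    rw [h4]
    exact div_mem (add_mem (sub_mem (hXq i) (hXp i))
      (mul_mem (he i) (sub_mem (pow_mem hQ 3) (pow_mem hP 3)))) (sub_mem hP hQ)
  have hd2 : ∀ i, a i + b i * (eval p t + eval r t) ∈ L := by
    intro i
    have h3 := h2 i
    rw [eval_xm, eval_xm] at h3
    have h4 : a i + b i * (eval p t + eval r t) =
        (eval r (x i) - eval p (x i) + e i * (eval r t ^ 3 - eval p t ^ 3)) /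
          (eval p t - eval r t) := by
      rw [eq_div_iff hPR]
      linear_combination h3
    rw [h4]
    exact div_mem (add_mem (sub_mem (hXr i) (hXp i))
      (mul_mem (he i) (sub_mem (pow_mem hR 3) (pow_mem hP 3)))) (sub_mem hP hR)
  have hb : ∀ i, b i ∈ L := by
    intro i
    have h4 : b i = ((a i + b i * (eval p t + eval q t)) - (a i + b i * (eval p t + eval r t))) /
        (eval q t - eval r t) := by
      rw [eq_div_iff hQR]
      ring
    rw [h4]
    exact div_mem (sub_mem (hd1 i) (hd2 i)) (sub_mem hQ hR)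
  have ha : ∀ i, a i ∈ L := by
    intro i
    have h4 : a i = (a i + b i * (eval p t + eval q t)) - b i * (eval p t + eval q t) := by ring
    rw [h4]
    exact sub_mem (hd1 i) (mul_mem (hb i) (add_mem hP hQ))
  have key := tr1 (K := K) (Sum.elim a (Sum.elim b e)) hind s (by
    intro k
    have hk : (Sum.elim a (Sum.elim b e)) k ∈ L := by
      rcases k with k | k | k
      · exact ha k
      · exact hb k
      · exact he k
    exact isAlgebraic_algebraMap (⟨_, hk⟩ : L))
  simp at key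
theorem gd_solve2 {K : Type} [Field K] [Algebra K ℂ] (L : IntermediateField K ℂ)
    {u v w α1 α2 α3 γ1 γ2 γ3 X Y : ℂ} (hw : w ∈ L) (h1 : α1 ∈ L) (h2 : α2 ∈ L) (h3 : α3 ∈ L)
    (k1 : γ1 ∈ L) (k2 : γ2 ∈ L) (k3 : γ3 ∈ L) (hX : X ∈ L) (hY : Y ∈ L)
    (e1 : u * α1 + v * α2 + w * α3 = X) (e2 : u * γ1 + v * γ2 + w * γ3 = Y)
    (hd : α1 * γ2 - α2 * γ1 ≠ 0) : u ∈ L ∧ v ∈ L := by
  have hu : u = ((X - w * α3) * γ2 - (Y - w * γ3) * α2) / (α1 * γ2 - α2 * γ1) := by
    rw [eq_div_iff hd, ← e1, ← e2]; ring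
  have hv : v = ((Y - w * γ3) * α1 - (X - w * α3) * γ1) / (α1 * γ2 - α2 * γ1) := by
    rw [eq_div_iff hd, ← e1, ← e2]; ring
  have hdd : α1 * γ2 - α2 * γ1 ∈ L := L.sub_mem (L.mul_mem h1 k2) (L.mul_mem h2 k1)
  have hA : X - w * α3 ∈ L := L.sub_mem hX (L.mul_mem hw h3)
  have hB : Y - w * γ3 ∈ L := L.sub_mem hY (L.mul_mem hw k3)
  constructor
  · rw [hu]
    exact L.div_mem (L.sub_mem (L.mul_mem hA k2) (L.mul_mem hB h2)) hdd
  · rw [hv]
    exact L.div_mem (L.sub_mem (L.mul_mem hB h1) (L.mul_mem hA k1)) hdd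

theorem gd_rank (T U τ θ : ℂ) (hTU : T ≠ U) (hne : τ ≠ 0 ∨ θ ≠ 0) :
    (T - U) * (2 * (T * τ - U * θ)) - (T^2 - U^2) * (τ - θ) ≠ 0 ∨
    (T - U) * (3 * (T^2 * τ - U^2 * θ)) - (T^3 - U^3) * (τ - θ) ≠ 0 := by
  by_contra hcon
  rw [not_or, not_not, not_not] at hcon
  obtain ⟨m1, m2⟩ := hcon
  have hd : T - U ≠ 0 := sub_ne_zero.2 hTU
  have f1 : (T - U)^2 * (τ + θ) = 0 := by rw [← m1]; ring
  have f2 : τ + θ = 0 := by
    rcases mul_eq_zero.1 f1 with h | h
    · exact absurd (pow_eq_zero_iff (two_ne_zero) |>.1 h) hd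
    · exact h
  have f3 : θ = -τ := by linear_combination f2
  subst f3
  have f4 : (T - U)^3 * τ = 0 := by rw [← m2]; ring
  have f5 : τ = 0 := by
    rcases mul_eq_zero.1 f4 with h | h
    · exact absurd (pow_eq_zero_iff (three_ne_zero) |>.1 h) hd
    · exact h
  rcases hne with h | h
  · exact h f5
  · exact h (by rw [f5, neg_zero])

theorem gd_card (k0 : Fin 2 ⊕ Fin 2) : Fintype.card {k : Fin 2 ⊕ Fin 2 // k ≠ k0} = 3 := by
  revert k0
  decide

theorem gd_count {K : Type} [Field K] [Algebra K ℂ] (c : Fin 4 → ℂ) (p q : Fin 2 → ℂ)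
    (z : Fin 2 ⊕ Fin 2 → ℂ) (k0 : Fin 2 ⊕ Fin 2) (hk0 : z k0 = 1) (a b e : Fin 4 → ℂ)
    (hind : AlgebraicIndependent K (Sum.elim a (Sum.elim b e)))
    (H : ∀ L : IntermediateField K ℂ, (∀ i, c i ∈ L) → (∀ j, p j ∈ L) → (∀ j, q j ∈ L) → (∀ k, z k ∈ L) →
      ∀ i, a i ∈ L ∧ b i ∈ L ∧ e i ∈ L) : False := by
  let s : Fin 4 ⊕ ((Fin 2 ⊕ Fin 2) ⊕ {k : Fin 2 ⊕ Fin 2 // k ≠ k0}) → ℂ :=
    Sum.elim c (Sum.elim (Sum.elim p q) (fun k => z k.1))
  have hsub := IntermediateField.subset_adjoin K (Set.range s)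
  have hH := H (IntermediateField.adjoin K (Set.range s))
    (fun i => hsub ⟨Sum.inl i, rfl⟩)
    (fun j => hsub ⟨Sum.inr (Sum.inl (Sum.inl j)), rfl⟩)
    (fun j => hsub ⟨Sum.inr (Sum.inl (Sum.inr j)), rfl⟩)
    (fun k => by
      by_cases hk : k = k0
      · rw [hk, hk0]; exact one_mem _
      · exact hsub ⟨Sum.inr (Sum.inr ⟨k, hk⟩), rfl⟩)
  have hc := tr1 (K := K) (Sum.elim a (Sum.elim b e)) hind s (by
    rintro (i | i | i)
    · exact isAlgebraic_algebraMap (⟨a i, (hH i).1⟩ : IntermediateField.adjoin K (Set.range s))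
    · exact isAlgebraic_algebraMap (⟨b i, (hH i).2.1⟩ : IntermediateField.adjoin K (Set.range s))
    · exact isAlgebraic_algebraMap (⟨e i, (hH i).2.2⟩ : IntermediateField.adjoin K (Set.range s)))
  simp only [Fintype.card_sum, Fintype.card_fin, gd_card] at hc
  omega

theorem gd_scaled {K : Type} [Field K] [Algebra K ℂ] (x : Fin 4 → A) (t : A) (hx : ∀ i, Over K (x i)) (ht : Over K t)
    (a b e : Fin 4 → ℂ) (hind : AlgebraicIndependent K (Sum.elim a (Sum.elim b e)))
    (p q : Fin 2 → ℂ) (z : Fin 2 ⊕ Fin 2 → ℂ) (k0 : Fin 2 ⊕ Fin 2) (hk0 : z k0 = 1)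
    (hTU : eval p t ≠ eval q t)
    (h1 : ∀ i, eval p (xm x t a b e i) = eval q (xm x t a b e i))
    (h2 : ∀ i, D (xm x t a b e i) p (fun j => z (Sum.inl j)) = D (xm x t a b e i) q (fun j => z (Sum.inr j)))
    (hne : D t p (fun j => z (Sum.inl j)) ≠ 0 ∨ D t q (fun j => z (Sum.inr j)) ≠ 0) : False := by
  have E1 : ∀ i, a i * (eval p t - eval q t) + b i * (eval p t ^ 2 - eval q t ^ 2) +
      e i * (eval p t ^ 3 - eval q t ^ 3) = eval q (x i) - eval p (x i) := by
    intro i
    have h := h1 i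
    rw [eval_xm, eval_xm] at h
    linear_combination h
  have E2 : ∀ i, a i * (D t p (fun j => z (Sum.inl j)) - D t q (fun j => z (Sum.inr j))) +
      b i * (2 * (eval p t * D t p (fun j => z (Sum.inl j)) - eval q t * D t q (fun j => z (Sum.inr j)))) +
      e i * (3 * (eval p t ^ 2 * D t p (fun j => z (Sum.inl j)) - eval q t ^ 2 * D t q (fun j => z (Sum.inr j)))) =
      D (x i) q (fun j => z (Sum.inr j)) - D (x i) p (fun j => z (Sum.inl j)) := by
    intro i
    have h := h2 i
    rw [D_xm, D_xm] at h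
    linear_combination h
  have two : ∀ L : IntermediateField K ℂ, (2:ℂ) ∈ L := fun L => by
    have : (2:ℂ) = 1 + 1 := by norm_num
    rw [this]; exact L.add_mem L.one_mem L.one_mem
  have three : ∀ L : IntermediateField K ℂ, (3:ℂ) ∈ L := fun L => by
    have : (3:ℂ) = 2 + 1 := by norm_num
    rw [this]; exact L.add_mem (two L) L.one_mem
  rcases gd_rank _ _ _ _ hTU hne with hm | hm
  · apply gd_count (K := K) e p q z k0 hk0 a b e hind
    intro L hc hp hq hz i
    have mT : eval p t ∈ L := ev_mem L t ht p hp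
    have mU : eval q t ∈ L := ev_mem L t ht q hq
    have mτ : D t p (fun j => z (Sum.inl j)) ∈ L := D_mem L t ht p _ hp (fun j => hz _)
    have mθ : D t q (fun j => z (Sum.inr j)) ∈ L := D_mem L t ht q _ hq (fun j => hz _)
    have mx1 : eval p (x i) ∈ L := ev_mem L _ (hx i) p hp
    have mx2 : eval q (x i) ∈ L := ev_mem L _ (hx i) q hq
    have mx3 : D (x i) p (fun j => z (Sum.inl j)) ∈ L := D_mem L _ (hx i) p _ hp (fun j => hz _)
    have mx4 : D (x i) q (fun j => z (Sum.inr j)) ∈ L := D_mem L _ (hx i) q _ hq (fun j => hz _)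
    have hr := gd_solve2 L (hc i) (L.sub_mem mT mU) (L.sub_mem (pow_mem mT 2) (pow_mem mU 2))
      (L.sub_mem (pow_mem mT 3) (pow_mem mU 3)) (L.sub_mem mτ mθ)
      (L.mul_mem (two L) (L.sub_mem (L.mul_mem mT mτ) (L.mul_mem mU mθ)))
      (L.mul_mem (three L) (L.sub_mem (L.mul_mem (pow_mem mT 2) mτ) (L.mul_mem (pow_mem mU 2) mθ)))
      (L.sub_mem mx2 mx1) (L.sub_mem mx4 mx3) (E1 i) (E2 i) hm
    exact ⟨hr.1, hr.2, hc i⟩
  · apply gd_count (K := K) b p q z k0 hk0 a b e hind
    intro L hc hp hq hz i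
    have mT : eval p t ∈ L := ev_mem L t ht p hp
    have mU : eval q t ∈ L := ev_mem L t ht q hq
    have mτ : D t p (fun j => z (Sum.inl j)) ∈ L := D_mem L t ht p _ hp (fun j => hz _)
    have mθ : D t q (fun j => z (Sum.inr j)) ∈ L := D_mem L t ht q _ hq (fun j => hz _)
    have mx1 : eval p (x i) ∈ L := ev_mem L _ (hx i) p hp
    have mx2 : eval q (x i) ∈ L := ev_mem L _ (hx i) q hq
    have mx3 : D (x i) p (fun j => z (Sum.inl j)) ∈ L := D_mem L _ (hx i) p _ hp (fun j => hz _)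
    have mx4 : D (x i) q (fun j => z (Sum.inr j)) ∈ L := D_mem L _ (hx i) q _ hq (fun j => hz _)
    have E1' := E1 i
    have E2' := E2 i
    rw [add_right_comm] at E1' E2'
    have hr := gd_solve2 L (hc i) (L.sub_mem mT mU) (L.sub_mem (pow_mem mT 3) (pow_mem mU 3))
      (L.sub_mem (pow_mem mT 2) (pow_mem mU 2)) (L.sub_mem mτ mθ)
      (L.mul_mem (three L) (L.sub_mem (L.mul_mem (pow_mem mT 2) mτ) (L.mul_mem (pow_mem mU 2) mθ)))
      (L.mul_mem (two L) (L.sub_mem (L.mul_mem mT mτ) (L.mul_mem mU mθ)))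
      (L.sub_mem mx2 mx1) (L.sub_mem mx4 mx3) E1' E2' hm
    exact ⟨hr.1, hc i, hr.2⟩

theorem g_d1 {K : Type} [Field K] [Algebra K ℂ] (x : Fin 4 → A) (t : A) (hx : ∀ i, Over K (x i)) (ht : Over K t)
    (a b e : Fin 4 → ℂ) (hind : AlgebraicIndependent K (Sum.elim a (Sum.elim b e)))
    (hsep : Sep x t) (p q ξ η : Fin 2 → ℂ) (hpq : p ≠ q)
    (h1 : ∀ i, eval p (xm x t a b e i) = eval q (xm x t a b e i))
    (h2 : ∀ i, D (xm x t a b e i) p ξ = D (xm x t a b e i) q η)
    (hne : D t p ξ ≠ 0 ∨ D t q η ≠ 0) : False := by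
  have hTU : eval p t ≠ eval q t := by
    intro hT
    apply hpq
    apply hsep p q _ hT
    intro i
    have h := h1 i
    rw [eval_xm, eval_xm, hT] at h
    linear_combination h
  have hz : ∃ k0 : Fin 2 ⊕ Fin 2, Sum.elim ξ η k0 ≠ 0 := by
    by_contra hcon
    push Not at hcon
    rcases hne with h | h
    · apply h
      unfold D
      exact Finset.sum_eq_zero (fun j _ => by
        have : ξ j = 0 := hcon (Sum.inl j)
        rw [this, zero_mul])
    · apply h
      unfold D
      exact Finset.sum_eq_zero (fun j _ => by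
        have : η j = 0 := hcon (Sum.inr j)
        rw [this, zero_mul])
  obtain ⟨k0, hk0⟩ := hz
  set c : ℂ := (Sum.elim ξ η k0)⁻¹ with hc
  have hc0 : c ≠ 0 := inv_ne_zero hk0
  let z : Fin 2 ⊕ Fin 2 → ℂ := fun k => c * Sum.elim ξ η k
  have ez1 : (fun j => z (Sum.inl j)) = c • ξ := rfl
  have ez2 : (fun j => z (Sum.inr j)) = c • η := rfl
  refine gd_scaled x t hx ht a b e hind p q z k0 (inv_mul_cancel₀ hk0) hTU h1 ?_ ?_
  · intro i
    rw [ez1, ez2, D_smul, D_smul, h2 i]
  · rw [ez1, ez2, D_smul, D_smul]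
    rcases hne with h | h
    · left; exact mul_ne_zero hc0 h
    · right; exact mul_ne_zero hc0 h
theorem g_d2_mono {K : Type} [Field K] [Algebra K ℂ] (S T : Set ℂ) (h : S ⊆ T) (z : ℂ)
    (hz : IsAlgebraic (IntermediateField.adjoin K S) z) :
    IsAlgebraic (IntermediateField.adjoin K T) z := by
  have hle : IntermediateField.adjoin K S ≤ IntermediateField.adjoin K T :=
    IntermediateField.adjoin.mono K S T h
  letI : Algebra (IntermediateField.adjoin K S) (IntermediateField.adjoin K T) :=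
    (IntermediateField.inclusion hle).toRingHom.toAlgebra
  haveI : IsScalarTower (IntermediateField.adjoin K S) (IntermediateField.adjoin K T) ℂ :=
    IsScalarTower.of_algebraMap_eq (fun x => rfl)
  exact hz.tower_top _

theorem g_d2_evp {K : Type} [Field K] [Algebra K ℂ] (P Q : Fin 2 → ℂ) (g : MvPolynomial (Fin 2) K) :
    aeval (![P 0, P 1, Q 0, Q 1] : Fin 4 → ℂ) (rename (![0, 1] : Fin 2 → Fin 4) g) =
      eval P (map (algebraMap K ℂ) g) := by
  rw [aeval_rename, eval_map, aeval_def]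
  congr 1
  funext j
  fin_cases j <;> rfl

theorem g_d2_evq {K : Type} [Field K] [Algebra K ℂ] (P Q : Fin 2 → ℂ) (g : MvPolynomial (Fin 2) K) :
    aeval (![P 0, P 1, Q 0, Q 1] : Fin 4 → ℂ) (rename (![2, 3] : Fin 2 → Fin 4) g) =
      eval Q (map (algebraMap K ℂ) g) := by
  rw [aeval_rename, eval_map, aeval_def]
  congr 1
  funext j
  fin_cases j <;> rfl

theorem g_d2_lam (A B X Y : ℂ) (h : X * A + Y * B = 0) (hne : A ≠ 0 ∨ B ≠ 0) :
    ∃ l : ℂ, X = -(l * B) ∧ Y = l * A := by
  rcases hne with hA | hB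
  · refine ⟨Y / A, ?_, ?_⟩
    · field_simp
      linear_combination h
    · field_simp
  · refine ⟨-(X / B), ?_, ?_⟩
    · field_simp
    · field_simp
      linear_combination h

theorem g_d2_jac {K : Type} [Field K] [Algebra K ℂ] (x t : A) (hx : Over K x) (ht : Over K t) :
    Over K (Jac t x) := by
  obtain ⟨g1, h1⟩ := over_pderiv t ht 0
  obtain ⟨g2, h2⟩ := over_pderiv x hx 1
  obtain ⟨g3, h3⟩ := over_pderiv t ht 1
  obtain ⟨g4, h4⟩ := over_pderiv x hx 0
  refine ⟨g1 * g2 - g3 * g4, ?_⟩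
  rw [map_sub, map_mul, map_mul, h1, h2, h3, h4]
  rfl

theorem g_d2_dep {K : Type} [Field K] [Algebra K ℂ] (x : Fin 4 → A) (t : A)
    (hx : ∀ i, Over K (x i)) (ht : Over K t)
    (hP : P1 x t) (p q ξ η : Fin 2 → ℂ) (hD : ∀ i, D (x i) p ξ = D (x i) q η)
    (hp0 : D t p ξ = 0) (hq0 : D t q η = 0) (hne : ¬ (ξ = 0 ∧ η = 0)) :
    ¬ AlgebraicIndependent K (![p 0, p 1, q 0, q 1] : Fin 4 → ℂ) := by
  intro hind
  obtain ⟨i, j, hij⟩ := hP
  have hi2 : Function.Injective (![0, 1] : Fin 2 → Fin 4) := by decide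
  have hi3 : Function.Injective (![2, 3] : Fin 2 → Fin 4) := by decide
  have hnp : ∀ f : A, Over K f → f ≠ 0 → eval p f ≠ 0 := by
    rintro f ⟨g, rfl⟩ hf h0
    rw [← g_d2_evp p q g] at h0
    have h1 := hind.eq_zero_of_aeval_eq_zero _ h0
    have h2 : g = 0 := rename_injective _ hi2 (by rw [h1, map_zero])
    exact hf (by rw [h2, map_zero])
  have hnq : ∀ f : A, Over K f → f ≠ 0 → eval q f ≠ 0 := by
    rintro f ⟨g, rfl⟩ hf h0
    rw [← g_d2_evq p q g] at h0
    have h1 := hind.eq_zero_of_aeval_eq_zero _ h0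
    have h2 : g = 0 := rename_injective _ hi3 (by rw [h1, map_zero])
    exact hf (by rw [h2, map_zero])
  have hgrad : pderiv 0 t ≠ 0 ∨ pderiv 1 t ≠ 0 := by
    by_contra hc
    push Not at hc
    have h1 := hij 1 0 (by
      unfold Jac
      rw [hc.1, hc.2]
      simp)
    exact one_ne_zero h1.1
  have hgp : eval p (pderiv 0 t) ≠ 0 ∨ eval p (pderiv 1 t) ≠ 0 := by
    rcases hgrad with h | h
    · exact Or.inl (hnp _ (over_pderiv t ht 0) h)
    · exact Or.inr (hnp _ (over_pderiv t ht 1) h)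
  have hgq : eval q (pderiv 0 t) ≠ 0 ∨ eval q (pderiv 1 t) ≠ 0 := by
    rcases hgrad with h | h
    · exact Or.inl (hnq _ (over_pderiv t ht 0) h)
    · exact Or.inr (hnq _ (over_pderiv t ht 1) h)
  unfold D at hp0 hq0
  rw [Fin.sum_univ_two] at hp0 hq0
  obtain ⟨l, hl1, hl2⟩ := g_d2_lam _ _ _ _ hp0 hgp
  obtain ⟨m, hm1, hm2⟩ := g_d2_lam _ _ _ _ hq0 hgq
  have hDp : ∀ k, D (x k) p ξ = l * eval p (Jac t (x k)) := by
    intro k
    unfold D Jac
    rw [Fin.sum_univ_two, hl1, hl2, map_sub, map_mul, map_mul]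
    ring
  have hDq : ∀ k, D (x k) q η = m * eval q (Jac t (x k)) := by
    intro k
    unfold D Jac
    rw [Fin.sum_univ_two, hm1, hm2, map_sub, map_mul, map_mul]
    ring
  have hlm : ∀ k, l * eval p (Jac t (x k)) = m * eval q (Jac t (x k)) := by
    intro k
    rw [← hDp, ← hDq, hD]
  have hlm0 : l ≠ 0 ∨ m ≠ 0 := by
    by_contra hc
    push Not at hc
    apply hne
    constructor
    · funext k
      fin_cases k
      · show ξ 0 = 0
        rw [hl1, hc.1]; ring
      · show ξ 1 = 0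
        rw [hl2, hc.1]; ring
    · funext k
      fin_cases k
      · show η 0 = 0
        rw [hm1, hc.2]; ring
      · show η 1 = 0
        rw [hm2, hc.2]; ring
  have hcross : eval p (Jac t (x i)) * eval q (Jac t (x j)) -
      eval p (Jac t (x j)) * eval q (Jac t (x i)) = 0 := by
    have e1 := hlm i
    have e2 := hlm j
    rcases hlm0 with h | h
    · apply mul_left_cancel₀ h
      linear_combination (eval q (Jac t (x j))) * e1 - (eval q (Jac t (x i))) * e2
    · apply mul_left_cancel₀ h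
      linear_combination (eval p (Jac t (x j))) * e1 - (eval p (Jac t (x i))) * e2
  obtain ⟨gi, hgi⟩ := g_d2_jac (x i) t (hx i) ht
  obtain ⟨gj, hgj⟩ := g_d2_jac (x j) t (hx j) ht
  obtain ⟨H, hH⟩ : ∃ H : MvPolynomial (Fin 4) K, H =
      rename (![0, 1] : Fin 2 → Fin 4) gi * rename (![2, 3] : Fin 2 → Fin 4) gj -
        rename (![0, 1] : Fin 2 → Fin 4) gj * rename (![2, 3] : Fin 2 → Fin 4) gi := ⟨_, rfl⟩
  have hHe : ∀ P Q : Fin 2 → ℂ, aeval (![P 0, P 1, Q 0, Q 1] : Fin 4 → ℂ) H =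
      eval P (Jac t (x i)) * eval Q (Jac t (x j)) - eval P (Jac t (x j)) * eval Q (Jac t (x i)) := by
    intro P Q
    rw [hH, map_sub, map_mul, map_mul, g_d2_evp, g_d2_evp, g_d2_evq, g_d2_evq, hgi, hgj]
  have hH0 : H = 0 := hind.eq_zero_of_aeval_eq_zero _ (by rw [hHe, hcross])
  have hall : ∀ P Q : Fin 2 → ℂ,
      eval P (Jac t (x i)) * eval Q (Jac t (x j)) - eval P (Jac t (x j)) * eval Q (Jac t (x i)) = 0 := by
    intro P Q
    rw [← hHe, hH0, map_zero]
  have hj0 : Jac t (x j) ≠ 0 := by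
    intro h0
    have h1 := hij 0 1 (by rw [h0]; simp)
    exact one_ne_zero h1.2
  obtain ⟨Q, hQ⟩ : ∃ Q : Fin 2 → ℂ, eval Q (Jac t (x j)) ≠ 0 := by
    by_contra hc
    push Not at hc
    apply hj0
    apply MvPolynomial.funext
    intro Q
    rw [hc Q, map_zero]
  have h1 := hij (eval Q (Jac t (x j))) (-(eval Q (Jac t (x i)))) (by
    apply MvPolynomial.funext
    intro P
    rw [map_add, map_mul, map_mul, eval_C, eval_C, map_zero]
    linear_combination hall P Q)
  exact hQ h1.1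

theorem g_d2_count {K : Type} [Field K] [Algebra K ℂ] (x : Fin 4 → A) (t : A)
    (hx : ∀ i, Over K (x i)) (ht : Over K t)
    (a b e : Fin 4 → ℂ) (hind : AlgebraicIndependent K (Sum.elim a (Sum.elim b e)))
    (hsep : Sep x t) (p q : Fin 2 → ℂ) (hpq : p ≠ q)
    (h1 : ∀ i, eval p (xm x t a b e i) = eval q (xm x t a b e i)) (s' : Fin 3 → ℂ)
    (hs' : ∀ k, IsAlgebraic (IntermediateField.adjoin K (Set.range s'))
      ((![p 0, p 1, q 0, q 1] : Fin 4 → ℂ) k)) : False := by
  obtain ⟨s, hs⟩ : ∃ s : (Fin 4 ⊕ (Fin 4 ⊕ Fin 3)) → ℂ, s = Sum.elim b (Sum.elim e s') := ⟨_, rfl⟩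
  have hsub : Set.range s' ⊆ Set.range s := by
    rintro _ ⟨k, rfl⟩
    exact ⟨Sum.inr (Sum.inr k), by rw [hs]; rfl⟩
  obtain ⟨L, hL⟩ : ∃ L : IntermediateField K ℂ,
      ∀ z, z ∈ L ↔ IsAlgebraic (IntermediateField.adjoin K (Set.range s)) z :=
    ⟨(algebraicClosure (IntermediateField.adjoin K (Set.range s)) ℂ).restrictScalars K, fun z => by
      rw [IntermediateField.mem_restrictScalars, mem_algebraicClosure_iff]⟩
  have hsL : ∀ k, s k ∈ L := by
    intro k
    rw [hL]
    have hmem : s k ∈ IntermediateField.adjoin K (Set.range s) :=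
      IntermediateField.subset_adjoin _ _ ⟨k, rfl⟩
    exact isAlgebraic_algebraMap (⟨s k, hmem⟩ : IntermediateField.adjoin K (Set.range s))
  have hbL : ∀ i, b i ∈ L := fun i => by
    have h2 := hsL (Sum.inl i)
    rw [hs] at h2
    exact h2
  have heL : ∀ i, e i ∈ L := fun i => by
    have h2 := hsL (Sum.inr (Sum.inl i))
    rw [hs] at h2
    exact h2
  have hpt : ∀ k, (![p 0, p 1, q 0, q 1] : Fin 4 → ℂ) k ∈ L :=
    fun k => (hL _).mpr (g_d2_mono _ _ hsub _ (hs' k))
  have hpL : ∀ j, p j ∈ L := by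
    intro j
    fin_cases j
    · exact hpt 0
    · exact hpt 1
  have hqL : ∀ j, q j ∈ L := by
    intro j
    fin_cases j
    · exact hpt 2
    · exact hpt 3
  have hT := ev_mem L t ht p hpL
  have hU := ev_mem L t ht q hqL
  have hTU : eval p t ≠ eval q t := by
    intro hEq
    apply hpq
    refine hsep p q ?_ hEq
    intro i
    have h2 := h1 i
    rw [eval_xm, eval_xm, hEq] at h2
    linear_combination h2
  have haL : ∀ i, a i ∈ L := by
    intro i
    have h2 := h1 i
    rw [eval_xm, eval_xm] at h2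
    have e1 : a i = ((eval q (x i) - eval p (x i)) - b i * (eval p t ^ 2 - eval q t ^ 2) -
        e i * (eval p t ^ 3 - eval q t ^ 3)) / (eval p t - eval q t) := by
      rw [eq_div_iff (sub_ne_zero.mpr hTU)]
      linear_combination h2
    rw [e1]
    have hxp := ev_mem L (x i) (hx i) p hpL
    have hxq := ev_mem L (x i) (hx i) q hqL
    exact div_mem (sub_mem (sub_mem (sub_mem hxq hxp)
      (mul_mem (hbL i) (sub_mem (pow_mem hT 2) (pow_mem hU 2))))
      (mul_mem (heL i) (sub_mem (pow_mem hT 3) (pow_mem hU 3)))) (sub_mem hT hU)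
  have hcard := tr1 _ hind s (by
    rintro (i | i | i)
    · exact (hL _).mp (haL i)
    · exact (hL _).mp (hbL i)
    · exact (hL _).mp (heL i))
  simp at hcard

theorem g_d2 {K : Type} [Field K] [Algebra K ℂ] (x : Fin 4 → A) (t : A) (hx : ∀ i, Over K (x i)) (ht : Over K t)
    (a b e : Fin 4 → ℂ) (hind : AlgebraicIndependent K (Sum.elim a (Sum.elim b e)))
    (hsep : Sep x t) (himm : Imm x t) (hP : P1 x t) (p q ξ η : Fin 2 → ℂ) (hpq : p ≠ q)
    (h1 : ∀ i, eval p (xm x t a b e i) = eval q (xm x t a b e i))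
    (h2 : ∀ i, D (xm x t a b e i) p ξ = D (xm x t a b e i) q η)
    (hp0 : D t p ξ = 0) (hq0 : D t q η = 0) : ξ = 0 ∧ η = 0 := by
  have hD : ∀ i, D (x i) p ξ = D (x i) q η := by
    intro i
    have h3 := h2 i
    rw [D_xm, D_xm, hp0, hq0, mul_zero, mul_zero, add_zero, add_zero] at h3
    exact h3
  by_contra hcon
  have hdep := g_d2_dep x t hx ht hP p q ξ η hD hp0 hq0 hcon
  obtain ⟨s', hs'⟩ := tr3 _ hdep
  exact g_d2_count x t hx ht a b e hind hsep p q hpq h1 s' hs'
theorem g_e_cnt {K : Type} [Field K] [Algebra K ℂ] [Countable K] (S : Set ℂ) (hS : S.Finite) :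
    Countable (IntermediateField.adjoin K S) := by
  rw [← Cardinal.mk_le_aleph0_iff]
  have h := IntermediateField.cardinalMk_adjoin_le K S
  refine h.trans ?_
  refine max_le (max_le ?_ ?_) le_rfl
  · exact Cardinal.mk_le_aleph0_iff.mpr inferInstance
  · exact Cardinal.mk_le_aleph0_iff.mpr hS.countable.to_subtype

theorem g_e {K : Type} [Field K] [Algebra K ℂ] [Countable K] (x : Fin 4 → A) (t : A) (hx : ∀ i, Over K (x i))
    (ht : Over K t) (a b e : Fin 4 → ℂ) (hind : AlgebraicIndependent K (Sum.elim a (Sum.elim b e)))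
    (hsep : Sep x t) :
    {p : Fin 2 → ℂ | ∃ q, q ≠ p ∧ ∀ i, eval p (xm x t a b e i) = eval q (xm x t a b e i)}.Countable := by
  haveI hcnt : Countable (IntermediateField.adjoin K (Set.range (Sum.elim a (Sum.elim b e)))) :=
    g_e_cnt _ (Set.finite_range _)
  have hc2 : {p : Fin 2 → ℂ | ∀ j, p j ∈ {z : ℂ | IsAlgebraic
      (IntermediateField.adjoin K (Set.range (Sum.elim a (Sum.elim b e)))) z}}.Countable :=
    Set.countable_pi (fun _ => Algebraic.countable _ _)
  refine hc2.mono ?_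
  rintro p ⟨q, hqp, hpq⟩ j
  set s : (Fin 4 ⊕ (Fin 4 ⊕ (Fin 2 ⊕ Fin 2))) → ℂ := Sum.elim b (Sum.elim e (Sum.elim p q)) with hs
  set L := IntermediateField.adjoin K (Set.range s) with hL
  have hmem : ∀ k, s k ∈ L := fun k => IntermediateField.subset_adjoin K _ ⟨k, rfl⟩
  have hb : ∀ i, b i ∈ L := fun i => hmem (Sum.inl i)
  have he : ∀ i, e i ∈ L := fun i => hmem (Sum.inr (Sum.inl i))
  have hp : ∀ i, p i ∈ L := fun i => hmem (Sum.inr (Sum.inr (Sum.inl i)))
  have hq : ∀ i, q i ∈ L := fun i => hmem (Sum.inr (Sum.inr (Sum.inr i)))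
  have hT := ev_mem L t ht p hp
  have hU := ev_mem L t ht q hq
  have hne : eval p t - eval q t ≠ 0 := by
    intro h0
    have h0' : eval p t = eval q t := sub_eq_zero.mp h0
    apply hqp
    symm
    apply hsep p q _ h0'
    intro i
    have := hpq i
    rw [eval_xm, eval_xm, h0'] at this
    linear_combination this
  have ha : ∀ i, a i ∈ L := by
    intro i
    have h1 := hpq i
    rw [eval_xm, eval_xm] at h1
    have h2 : a i = (eval q (x i) - eval p (x i) - b i * (eval p t ^ 2 - eval q t ^ 2)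
        - e i * (eval p t ^ 3 - eval q t ^ 3)) / (eval p t - eval q t) := by
      rw [eq_div_iff hne]
      linear_combination h1
    rw [h2]
    have hxp := ev_mem L (x i) (hx i) p hp
    have hxq := ev_mem L (x i) (hx i) q hq
    exact div_mem (sub_mem (sub_mem (sub_mem hxq hxp) (mul_mem (hb i) (sub_mem (pow_mem hT 2) (pow_mem hU 2))))
      (mul_mem (he i) (sub_mem (pow_mem hT 3) (pow_mem hU 3)))) (sub_mem hT hU)
  have halg : ∀ i, IsAlgebraic L (Sum.elim a (Sum.elim b e) i) := by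
    have key : ∀ z : ℂ, z ∈ L → IsAlgebraic L z := by
      intro z hz
      exact isAlgebraic_algebraMap (⟨z, hz⟩ : L)
    intro i
    rcases i with i | i | i
    · exact key _ (ha i)
    · exact key _ (hb i)
    · exact key _ (he i)
  have := tr2 (Sum.elim a (Sum.elim b e)) hind s halg (by simp) (Sum.inr (Sum.inr (Sum.inl j)))
  exact this
theorem g_0 (x : Fin 4 → A) (t : A) :
    ∃ (K : IntermediateField ℚ ℂ) (_ : Countable K) (a b e : Fin 4 → ℂ), (∀ i, Over K (x i)) ∧ Over K t ∧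
      AlgebraicIndependent K (Sum.elim a (Sum.elim b e)) := by
  classical
  obtain ⟨S, hS⟩ : ∃ S : Set ℂ, S = (⋃ i, ((x i).coeffs : Set ℂ)) ∪ (t.coeffs : Set ℂ) := ⟨_, rfl⟩
  have hSc : S.Countable := by
    rw [hS]
    exact (Set.countable_iUnion fun i => (Finset.countable_toSet _)).union (Finset.countable_toSet _)
  have hKc : Countable (IntermediateField.adjoin ℚ S) := by
    have h1 := IntermediateField.lift_cardinalMk_adjoin_le ℚ S
    rw [← Cardinal.mk_le_aleph0_iff]
    have h2 : Cardinal.mk S ≤ Cardinal.aleph0 := by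
      rw [Cardinal.mk_le_aleph0_iff]; exact hSc.to_subtype
    have h3 : Cardinal.mk ℚ ≤ Cardinal.aleph0 := Cardinal.mk_le_aleph0
    simp only [Cardinal.lift_uzero, Cardinal.lift_id] at h1
    refine h1.trans ?_
    simp [h2, h3]
  refine ⟨IntermediateField.adjoin ℚ S, hKc, ?_⟩
  obtain ⟨s, hs⟩ := exists_isTranscendenceBasis (IntermediateField.adjoin ℚ S) ℂ
  have hinf : Infinite s := by
    by_contra hfin
    rw [not_infinite_iff_finite] at hfin
    have h1 := IsAlgClosed.cardinal_le_max_transcendence_basis' _ hs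
    have h2 : Cardinal.mk ℂ ≤ Cardinal.aleph0 := by
      refine h1.trans ?_
      refine max_le (max_le ?_ ?_) le_rfl
      · rw [Cardinal.mk_le_aleph0_iff]; exact hKc
      · exact Cardinal.mk_le_aleph0
    rw [Cardinal.mk_complex] at h2
    exact absurd h2 (not_le.2 Cardinal.aleph0_lt_continuum)
  obtain ⟨g, hg⟩ : ∃ g : (Fin 4 ⊕ (Fin 4 ⊕ Fin 4)) → s, Function.Injective g :=
    ⟨fun z => Infinite.natEmbedding s (Encodable.encode z),
      fun z w h => Encodable.encode_injective ((Infinite.natEmbedding s).injective h)⟩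
  have hAI := hs.1.comp g hg
  refine ⟨fun i => (g (Sum.inl i) : ℂ), fun i => (g (Sum.inr (Sum.inl i)) : ℂ),
    fun i => (g (Sum.inr (Sum.inr i)) : ℂ), ?_, ?_, ?_⟩
  · intro i
    have : x i ∈ Set.range (MvPolynomial.map (algebraMap (IntermediateField.adjoin ℚ S) ℂ)) := by
      rw [MvPolynomial.mem_range_map_iff_coeffs_subset]
      intro c hc
      refine ⟨⟨c, IntermediateField.subset_adjoin ℚ S ?_⟩, rfl⟩
      rw [hS]
      exact Or.inl (Set.mem_iUnion.2 ⟨i, hc⟩)
    exact this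
  · have : t ∈ Set.range (MvPolynomial.map (algebraMap (IntermediateField.adjoin ℚ S) ℂ)) := by
      rw [MvPolynomial.mem_range_map_iff_coeffs_subset]
      intro c hc
      refine ⟨⟨c, IntermediateField.subset_adjoin ℚ S ?_⟩, rfl⟩
      rw [hS]
      exact Or.inr hc
    exact this
  · convert hAI using 1
    funext z
    rcases z with z | z | z <;> rfl
theorem sep_of (x : Fin 4 → A) (t : A) (h : Algebra.adjoin ℂ (Set.range x ∪ {t}) = ⊤) : Sep x t := by
  intro p q hx ht
  have key : ∀ f : A, eval p f = eval q f := by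
    intro f
    have hf : f ∈ Algebra.adjoin ℂ (Set.range x ∪ {t}) := by rw [h]; trivial
    induction hf using Algebra.adjoin_induction with
    | mem y hy =>
      rcases hy with ⟨i, rfl⟩ | hy
      · exact hx i
      · rw [Set.mem_singleton_iff.mp hy]; exact ht
    | algebraMap r => simp [MvPolynomial.algebraMap_eq]
    | add a b _ _ ha hb => rw [map_add, map_add, ha, hb]
    | mul a b _ _ ha hb => rw [map_mul, map_mul, ha, hb]
  funext j
  simpa using key (X j)

theorem imm_of (x : Fin 4 → A) (t : A) (h : Algebra.adjoin ℂ (Set.range x ∪ {t}) = ⊤) : Imm x t := by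
  intro p ξ hx ht
  have key : ∀ f : A, D f p ξ = 0 := by
    intro f
    have hf : f ∈ Algebra.adjoin ℂ (Set.range x ∪ {t}) := by rw [h]; trivial
    induction hf using Algebra.adjoin_induction with
    | mem y hy =>
      rcases hy with ⟨i, rfl⟩ | hy
      · exact hx i
      · rw [Set.mem_singleton_iff.mp hy]; exact ht
    | algebraMap r => simp [MvPolynomial.algebraMap_eq, D]
    | add a b _ _ ha hb =>
      have : D (a + b) p ξ = D a p ξ + D b p ξ := by
        unfold D
        rw [← Finset.sum_add_distrib]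
        apply Finset.sum_congr rfl
        intro j _
        rw [map_add, map_add]; ring
      rw [this, ha, hb, add_zero]
    | mul a b _ _ ha hb =>
      have : D (a * b) p ξ = eval p a * D b p ξ + eval p b * D a p ξ := by
        unfold D
        rw [Finset.mul_sum, Finset.mul_sum, ← Finset.sum_add_distrib]
        apply Finset.sum_congr rfl
        intro j _
        rw [Derivation.leibniz, map_add, smul_eq_mul, smul_eq_mul, map_mul, map_mul]; ring
      rw [this, ha, hb, mul_zero, mul_zero, add_zero]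
  funext j
  have hj := key (X j)
  unfold D at hj
  rw [Finset.sum_eq_single j] at hj
  · simpa [pderiv_X] using hj
  · intro i _ hij
    rw [pderiv_X_of_ne hij.symm]; simp
  · intro hh; exact absurd (Finset.mem_univ j) hh
theorem prep1_const (t : A) (h0 : pderiv 0 t = 0) (h1 : pderiv 1 t = 0) : ∃ c : ℂ, t = C c := by
  refine ⟨coeff 0 t, ?_⟩
  ext m
  by_cases hm : m = 0
  · rw [hm, coeff_C, if_pos rfl]
  · rw [coeff_C, if_neg (fun h => hm h.symm)]
    obtain ⟨i, hi⟩ : ∃ i, m i ≠ 0 := by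
      by_contra hcon
      push Not at hcon
      exact hm (Finsupp.ext hcon)
    have hd : pderiv i t = 0 := by
      fin_cases i
      · exact h0
      · exact h1
    have hc := coeff_pderiv (i := i) t (m - Finsupp.single i 1)
    rw [hd, coeff_zero] at hc
    have hle : Finsupp.single i 1 ≤ m := by
      rw [Finsupp.single_le_iff]
      omega
    rw [tsub_add_cancel_of_le hle] at hc
    have hne : (((m - Finsupp.single i 1 : Fin 2 →₀ ℕ) i : ℕ) : ℂ) + 1 ≠ 0 := by
      exact Nat.cast_add_one_ne_zero _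
    rcases mul_eq_zero.1 hc.symm with h | h
    · exact h
    · exact absurd h hne

theorem prep1_add (t x y : A) : Jac t (x + y) = Jac t x + Jac t y := by
  unfold Jac
  rw [map_add, map_add]
  ring

theorem prep1_mul (t x y : A) : Jac t (x * y) = Jac t x * y + x * Jac t y := by
  unfold Jac
  rw [pderiv_mul, pderiv_mul]
  ring

theorem prep1_C (t : A) (c : ℂ) : Jac t (C c) = 0 := by
  unfold Jac
  rw [pderiv_C, pderiv_C]
  ring

theorem prep1_self (t : A) : Jac t t = 0 := by
  unfold Jac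
  ring

theorem prep1_vanish (α : MvPolynomial (Fin 5) ℂ →ₐ[ℂ] A) (t : A)
    (h : ∀ i, Jac t (α (X i)) = 0) (p : MvPolynomial (Fin 5) ℂ) : Jac t (α p) = 0 := by
  induction p using MvPolynomial.induction_on with
  | C a =>
    have : α (C a) = C a := α.commutes a
    rw [this]
    exact prep1_C t a
  | add p q hp hq => rw [map_add, prep1_add, hp, hq, add_zero]
  | mul_X p i hp => rw [map_mul, prep1_mul, hp, h i, zero_mul, mul_zero, add_zero]

theorem prep1_exists (α : MvPolynomial (Fin 5) ℂ →ₐ[ℂ] A) (hα : Function.Surjective α) (t : A)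
    (ht : ¬ ∃ c : ℂ, t = C c) : ∃ i, Jac t (α (X i)) ≠ 0 := by
  by_contra hcon
  push Not at hcon
  have hv : ∀ a : A, Jac t a = 0 := by
    intro a
    obtain ⟨p, rfl⟩ := hα a
    exact prep1_vanish α t hcon p
  apply ht
  apply prep1_const
  · have := hv (X 1)
    unfold Jac at this
    rw [pderiv_X_self, pderiv_X_of_ne (by decide : (1 : Fin 2) ≠ 0)] at this
    simpa using this
  · have := hv (X 0)
    unfold Jac at this
    rw [pderiv_X_self, pderiv_X_of_ne (by decide : (0 : Fin 2) ≠ 1)] at this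
    simpa using this

theorem prep1_nonconst (α : MvPolynomial (Fin 5) ℂ →ₐ[ℂ] A) (hα : Function.Surjective α) :
    ∃ m, ¬ ∃ c : ℂ, α (X m) = C c := by
  by_contra hcon
  push Not at hcon
  have hz : ∀ i, Jac (X 0) (α (X i)) = 0 := by
    intro i
    obtain ⟨c, hc⟩ := hcon i
    rw [hc]
    exact prep1_C _ c
  obtain ⟨p, hp⟩ := hα (X 1)
  have h1 := prep1_vanish α (X 0) hz p
  rw [hp] at h1
  unfold Jac at h1
  rw [pderiv_X_self, pderiv_X_self, pderiv_X_of_ne (by decide : (1 : Fin 2) ≠ 0)] at h1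
  simp at h1

/-- triangular automorphism -/
theorem prep1_tri (i j : Fin 5) (hij : i ≠ j) :
    ∃ τ : MvPolynomial (Fin 5) ℂ ≃ₐ[ℂ] MvPolynomial (Fin 5) ℂ,
      τ (X j) = X j + X i ^ 2 ∧ ∀ k, k ≠ j → τ (X k) = X k := by
  classical
  let f : Fin 5 → MvPolynomial (Fin 5) ℂ := Function.update X j (X j + X i ^ 2)
  let g : Fin 5 → MvPolynomial (Fin 5) ℂ := Function.update X j (X j - X i ^ 2)
  have hfj : f j = X j + X i ^ 2 := Function.update_self _ _ _
  have hfk : ∀ k, k ≠ j → f k = X k := fun k hk => Function.update_of_ne hk _ _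
  have hgj : g j = X j - X i ^ 2 := Function.update_self _ _ _
  have hgk : ∀ k, k ≠ j → g k = X k := fun k hk => Function.update_of_ne hk _ _
  refine ⟨AlgEquiv.ofAlgHom (aeval f) (aeval g) ?_ ?_, ?_, ?_⟩
  · apply MvPolynomial.algHom_ext
    intro k
    rw [AlgHom.comp_apply, aeval_X, AlgHom.id_apply]
    by_cases hk : k = j
    · rw [hk, hgj, map_sub, map_pow, aeval_X, aeval_X, hfj, hfk i hij]
      ring
    · rw [hgk k hk, aeval_X, hfk k hk]
  · apply MvPolynomial.algHom_ext
    intro k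
    rw [AlgHom.comp_apply, aeval_X, AlgHom.id_apply]
    by_cases hk : k = j
    · rw [hk, hfj, map_add, map_pow, aeval_X, aeval_X, hgj, hgk i hij]
      ring
    · rw [hfk k hk, aeval_X, hgk k hk]
  · show aeval f (X j) = _
    rw [aeval_X, hfj]
  · intro k hk
    show aeval f (X k) = _
    rw [aeval_X, hfk k hk]

/-- independence -/
def prep1_Ind (a b : A) : Prop := ∀ u v : ℂ, C u * a + C v * b = 0 → u = 0 ∧ v = 0

theorem prep1_core (α : MvPolynomial (Fin 5) ℂ →ₐ[ℂ] A) (hα : Function.Surjective α) :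
    ∃ (τ : MvPolynomial (Fin 5) ℂ ≃ₐ[ℂ] MvPolynomial (Fin 5) ℂ) (m i j : Fin 5), i ≠ m ∧ j ≠ m ∧
      prep1_Ind (Jac (α (τ (X m))) (α (τ (X i)))) (Jac (α (τ (X m))) (α (τ (X j)))) := by
  obtain ⟨m, hm⟩ := prep1_nonconst α hα
  obtain ⟨i, hi⟩ := prep1_exists α hα _ hm
  have him : i ≠ m := by
    rintro rfl
    exact hi (prep1_self _)
  have hthird : ∀ m i : Fin 5, ∃ j : Fin 5, j ≠ m ∧ j ≠ i := by decide
  obtain ⟨j, hjm, hji⟩ := hthird m i
  by_cases hind : prep1_Ind (Jac (α (X m)) (α (X i))) (Jac (α (X m)) (α (X j)))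
  · exact ⟨AlgEquiv.refl, m, i, j, him, hjm, hind⟩
  · obtain ⟨τ, hτj, hτk⟩ := prep1_tri i j hji.symm
    refine ⟨τ, m, i, j, him, hjm, ?_⟩
    rw [hτk m hjm.symm, hτk i hji.symm, hτj, map_add, map_pow, prep1_add, sq, prep1_mul]
    unfold prep1_Ind at hind
    push Not at hind
    obtain ⟨u, v, huv, hne⟩ := hind
    have hv : v ≠ 0 := by
      intro hv
      rw [hv, C_0, zero_mul, add_zero] at huv
      rcases mul_eq_zero.1 huv with h | h
      · have hu : u = 0 := by
          have := (MvPolynomial.C_eq_zero (σ := Fin 2)).1 h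
          exact this
        exact hne hu hv
      · exact hi h
    have hJ : Jac (α (X m)) (α (X j)) = C (-u / v) * Jac (α (X m)) (α (X i)) := by
      have e1 : C v * Jac (α (X m)) (α (X j)) = C v * (C (-u / v) * Jac (α (X m)) (α (X i))) := by
        rw [← mul_assoc, ← C_mul, mul_div_cancel₀ _ hv, C_neg]
        linear_combination huv
      have hCv : (C v : A) ≠ 0 := by
        rw [Ne, MvPolynomial.C_eq_zero]
        exact hv
      exact mul_left_cancel₀ hCv e1
    intro a b hab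
    rw [hJ] at hab
    have e2 : (C (a + b * (-u / v)) + C (2 * b) * α (X i)) * Jac (α (X m)) (α (X i)) = 0 := by
      rw [C_add, C_mul, C_mul]
      have e3 : (C (2 : ℂ) : A) = 2 := by
        exact map_ofNat C 2
      rw [e3]
      linear_combination hab
    have e4 : C (a + b * (-u / v)) + C (2 * b) * α (X i) = 0 := by
      rcases mul_eq_zero.1 e2 with h | h
      · exact h
      · exact absurd h hi
    have hb : b = 0 := by
      by_contra hb
      apply hi
      have h2b : 2 * b ≠ 0 := mul_ne_zero two_ne_zero hb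
      have e5 : C (2 * b) * α (X i) = C (2 * b) * C (-(a + b * (-u / v)) / (2 * b)) := by
        rw [← C_mul, mul_div_cancel₀ _ h2b, C_neg]
        linear_combination e4
      have hCb : (C (2 * b) : A) ≠ 0 := by
        rw [Ne, MvPolynomial.C_eq_zero]
        exact h2b
      rw [mul_left_cancel₀ hCb e5]
      exact prep1_C _ _
    refine ⟨?_, hb⟩
    rw [hb, mul_zero, C_0, zero_mul, add_zero, zero_mul, add_zero] at e4
    exact MvPolynomial.C_eq_zero.1 e4

theorem prep1 (α : MvPolynomial (Fin 5) ℂ →ₐ[ℂ] A) (hα : Function.Surjective α) :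
    ∃ σ : MvPolynomial (Fin 5) ℂ ≃ₐ[ℂ] MvPolynomial (Fin 5) ℂ,
      P1 (fun i : Fin 4 => α (σ (X i.castSucc))) (α (σ (X (Fin.last 4)))) := by
  obtain ⟨τ, m, i, j, him, hjm, hind⟩ := prep1_core α hα
  have hsw : ∀ k, (MvPolynomial.renameEquiv ℂ (Equiv.swap (Fin.last 4) m)).trans τ (X k) =
      τ (X (Equiv.swap (Fin.last 4) m k)) := by
    intro k
    rw [AlgEquiv.trans_apply, renameEquiv_apply, rename_X]
  have hl : ∀ k, k ≠ m → ∃ k' : Fin 4, Equiv.swap (Fin.last 4) m k'.castSucc = k := by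
    intro k hk
    have h1 : Equiv.swap (Fin.last 4) m k ≠ Fin.last 4 := by
      intro h
      apply hk
      have h2 := congrArg (Equiv.swap (Fin.last 4) m) h
      rwa [Equiv.swap_apply_self, Equiv.swap_apply_left] at h2
    obtain ⟨k', hk'⟩ := Fin.exists_castSucc_eq.2 h1
    refine ⟨k', ?_⟩
    rw [hk', Equiv.swap_apply_self]
  obtain ⟨i', hi'⟩ := hl i him
  obtain ⟨j', hj'⟩ := hl j hjm
  refine ⟨(MvPolynomial.renameEquiv ℂ (Equiv.swap (Fin.last 4) m)).trans τ, i', j', ?_⟩
  intro u v huv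
  apply hind u v
  simp only [hsw, hi', hj', Equiv.swap_apply_left] at huv
  exact huv
theorem prep2_dep (x : Fin 3 → A) : ∃ F : MvPolynomial (Fin 3) ℂ, F ≠ 0 ∧ aeval x F = 0 := by
  by_contra hcon
  have hind : AlgebraicIndependent ℂ x := by
    rw [algebraicIndependent_iff]
    intro p hp
    by_contra h0
    exact hcon ⟨p, h0, hp⟩
  have h1 := hind.cardinalMk_le_trdeg
  rw [MvPolynomial.trdeg_of_isDomain] at h1
  simp at h1
  norm_num at h1

theorem prep2_digits (n0 n1 d a b c a' b' c' : ℕ) (h0 : d < n0) (h1 : n0 * d + d < n1)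
    (ha : a ≤ d) (hc : c ≤ d) (ha' : a' ≤ d) (hc' : c' ≤ d)
    (h : n0 * a + n1 * b + c = n0 * a' + n1 * b' + c') : a = a' ∧ b = b' ∧ c = c' := by
  have hb : b = b' := by
    have e1 : n0 * a ≤ n0 * d := Nat.mul_le_mul_left _ ha
    have e2 : n0 * a' ≤ n0 * d := Nat.mul_le_mul_left _ ha'
    rcases lt_trichotomy b b' with hlt | heq | hgt
    · have e3 : n1 * (b + 1) ≤ n1 * b' := Nat.mul_le_mul_left _ hlt
      rw [Nat.mul_add] at e3
      omega
    · exact heq
    · have e3 : n1 * (b' + 1) ≤ n1 * b := Nat.mul_le_mul_left _ hgt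
      rw [Nat.mul_add] at e3
      omega
  subst hb
  have haa : a = a' := by
    rcases lt_trichotomy a a' with hlt | heq | hgt
    · have e3 : n0 * (a + 1) ≤ n0 * a' := Nat.mul_le_mul_left _ hlt
      rw [Nat.mul_add] at e3
      omega
    · exact heq
    · have e3 : n0 * (a' + 1) ≤ n0 * a := Nat.mul_le_mul_left _ hgt
      rw [Nat.mul_add] at e3
      omega
  subst haa
  exact ⟨rfl, rfl, by omega⟩

theorem prep2_integral (R : Subalgebra ℂ A) (t : A) (P0 P1 : Polynomial R) (n0 n1 : ℕ)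
    (m0 : P0.Monic) (m1 : P1.Monic) (d0 : P0.natDegree = n0) (d1 : P1.natDegree = n1)
    (F : MvPolynomial (Fin 3) ℂ) (hF : F ≠ 0) (h0 : F.totalDegree < n0)
    (h1 : n0 * F.totalDegree + F.totalDegree < n1)
    (hz : aeval ![Polynomial.aeval t P0, Polynomial.aeval t P1, t] F = 0) : IsIntegral R t := by
  classical
  let G : Polynomial R := aeval ![P0, P1, Polynomial.X] F
  have hG : Polynomial.aeval t G = 0 := by
    have e1 : Polynomial.aeval t G =
        ((Polynomial.aeval t : Polynomial R →ₐ[R] A).restrictScalars ℂ) (aeval ![P0, P1, Polynomial.X] F) := rfl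
    rw [e1, comp_aeval_apply]
    rw [← hz]
    congr 2
    funext i
    fin_cases i <;> simp
  let Dg : (Fin 3 →₀ ℕ) → ℕ := fun m => n0 * m 0 + n1 * m 1 + m 2
  let M : (Fin 3 →₀ ℕ) → Polynomial R := fun m => P0 ^ m 0 * P1 ^ m 1 * Polynomial.X ^ m 2
  have hM : ∀ m, (M m).Monic := fun m =>
    ((m0.pow _).mul (m1.pow _)).mul (Polynomial.monic_X_pow _)
  have hMd : ∀ m, (M m).natDegree = Dg m := by
    intro m
    show (P0 ^ m 0 * P1 ^ m 1 * Polynomial.X ^ m 2).natDegree = n0 * m 0 + n1 * m 1 + m 2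
    rw [((m0.pow _).mul (m1.pow _)).natDegree_mul (Polynomial.monic_X_pow _), (m0.pow _).natDegree_mul (m1.pow _),
      m0.natDegree_pow, m1.natDegree_pow, Polynomial.natDegree_X_pow, d0, d1]
    ring
  have hGs : G = ∑ m ∈ F.support, Polynomial.C (algebraMap ℂ R (coeff m F)) * M m := by
    show aeval ![P0, P1, Polynomial.X] F = _
    rw [aeval_def, eval₂_eq']
    refine Finset.sum_congr rfl fun m _ => ?_
    rw [Fin.prod_univ_three]
    rfl
  obtain ⟨ms, hms, hmax⟩ := Finset.exists_max_image F.support Dg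
    (Finset.nonempty_iff_ne_empty.mpr (by simpa using hF))
  have hle : ∀ m ∈ F.support, ∀ i, m i ≤ F.totalDegree := by
    intro m hm i
    refine le_trans ?_ (le_totalDegree hm)
    rw [Finsupp.sum_fintype _ _ (fun _ => rfl)]
    exact Finset.single_le_sum (f := fun i => m i) (fun _ _ => Nat.zero_le _) (Finset.mem_univ i)
  have hinj : ∀ m ∈ F.support, Dg m = Dg ms → m = ms := by
    intro m hm h
    obtain ⟨e0, e1, e2⟩ := prep2_digits n0 n1 F.totalDegree (m 0) (m 1) (m 2) (ms 0) (ms 1) (ms 2) h0 h1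
      (hle m hm 0) (hle m hm 2) (hle ms hms 0) (hle ms hms 2) h
    ext i
    fin_cases i
    · exact e0
    · exact e1
    · exact e2
  have hcoef : G.coeff (Dg ms) = algebraMap ℂ R (coeff ms F) := by
    rw [hGs, Polynomial.finsetSum_coeff, Finset.sum_eq_single ms]
    · rw [Polynomial.coeff_C_mul, ← hMd ms, (hM ms).coeff_natDegree, mul_one]
    · intro m hm hne
      rw [Polynomial.coeff_C_mul, Polynomial.coeff_eq_zero_of_natDegree_lt, mul_zero]
      rw [hMd]
      exact lt_of_le_of_ne (hmax m hm) (fun h => hne (hinj m hm h))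
    · intro h
      exact absurd hms h
  have hdeg : G.natDegree ≤ Dg ms := by
    rw [hGs]
    refine Polynomial.natDegree_sum_le_of_forall_le _ _ fun m hm => ?_
    refine le_trans (Polynomial.natDegree_C_mul_le _ _) ?_
    rw [hMd]
    exact hmax m hm
  have hc0 : coeff ms F ≠ 0 := mem_support_iff.mp hms
  refine ⟨Polynomial.C (algebraMap ℂ R (coeff ms F)⁻¹) * G, ?_, ?_⟩
  · refine Polynomial.monic_of_natDegree_le_of_coeff_eq_one (Dg ms) ?_ ?_
    · exact le_trans (Polynomial.natDegree_C_mul_le _ _) hdeg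
    · rw [Polynomial.coeff_C_mul, hcoef, ← map_mul, inv_mul_cancel₀ hc0, map_one]
  · rw [← Polynomial.aeval_def, map_mul, hG, mul_zero]

theorem prep2 (α : MvPolynomial (Fin 5) ℂ →ₐ[ℂ] A) (hα : Function.Surjective α)
    (hP : P1 (fun i : Fin 4 => α (X i.castSucc)) (α (X (Fin.last 4)))) :
    ∃ σ : MvPolynomial (Fin 5) ℂ ≃ₐ[ℂ] MvPolynomial (Fin 5) ℂ,
      P1 (fun i : Fin 4 => α (σ (X i.castSucc))) (α (σ (X (Fin.last 4)))) ∧
      P2 (fun i : Fin 4 => α (σ (X i.castSucc))) (α (σ (X (Fin.last 4)))) := by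
  obtain ⟨F, hF, hz⟩ := prep2_dep ![-α (X 0), -α (X 1), α (X 4)]
  obtain ⟨n0, hn0⟩ : ∃ n0, n0 = F.totalDegree + 4 := ⟨_, rfl⟩
  obtain ⟨n1, hn1⟩ : ∃ n1, n1 = n0 * F.totalDegree + F.totalDegree + 4 := ⟨_, rfl⟩
  let s : Fin 5 → MvPolynomial (Fin 5) ℂ := ![X 4 ^ n0, X 4 ^ n1, 0, 0, 0]
  let σ1 : MvPolynomial (Fin 5) ℂ →ₐ[ℂ] MvPolynomial (Fin 5) ℂ := aeval (fun i => X i + s i)
  let σ2 : MvPolynomial (Fin 5) ℂ →ₐ[ℂ] MvPolynomial (Fin 5) ℂ := aeval (fun i => X i - s i)
  have h12 : σ1.comp σ2 = AlgHom.id ℂ _ := by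
    apply MvPolynomial.algHom_ext
    intro i
    fin_cases i <;> simp [σ1, σ2, s]
  have h21 : σ2.comp σ1 = AlgHom.id ℂ _ := by
    apply MvPolynomial.algHom_ext
    intro i
    fin_cases i <;> simp [σ1, σ2, s]
  let σ : MvPolynomial (Fin 5) ℂ ≃ₐ[ℂ] MvPolynomial (Fin 5) ℂ := AlgEquiv.ofAlgHom σ1 σ2 h12 h21
  have hσ : ∀ i, σ (X i) = X i + s i := by
    intro i
    show σ1 (X i) = _
    simp [σ1]
  have hs : ∀ i : Fin 4, ∃ n, α (s i.castSucc) = 0 ∨ α (s i.castSucc) = α (X 4) ^ n := by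
    intro i
    fin_cases i
    · exact ⟨n0, Or.inr (by simp [s])⟩
    · exact ⟨n1, Or.inr (by simp [s])⟩
    · exact ⟨0, Or.inl (by simp [s])⟩
    · exact ⟨0, Or.inl (by simp [s])⟩
  have hlast : α (σ (X (Fin.last 4))) = α (X 4) := by
    rw [hσ]
    have : s (Fin.last 4) = 0 := rfl
    rw [this, add_zero]
    rfl
  have hJ : ∀ i : Fin 4, Jac (α (X 4)) (α (σ (X i.castSucc))) = Jac (α (X 4)) (α (X i.castSucc)) := by
    intro i
    rw [hσ, map_add]
    obtain ⟨n, h | h⟩ := hs i
    · rw [h, add_zero]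
    · rw [h]
      unfold Jac
      rw [map_add, map_add, Derivation.leibniz_pow, Derivation.leibniz_pow]
      simp only [smul_eq_mul, nsmul_eq_mul]
      ring
  refine ⟨σ, ?_, ?_⟩
  · obtain ⟨i, j, hij⟩ := hP
    refine ⟨i, j, ?_⟩
    intro u v huv
    apply hij u v
    rw [hlast, hJ, hJ] at huv
    exact huv
  · intro a b e
    rw [hlast]
    have hmem : ∀ i, xm (fun i : Fin 4 => α (σ (X i.castSucc))) (α (X 4)) a b e i ∈
        Algebra.adjoin ℂ (Set.range (xm (fun i : Fin 4 => α (σ (X i.castSucc))) (α (X 4)) a b e)) :=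
      fun i => Algebra.subset_adjoin ⟨i, rfl⟩
    generalize hR : Algebra.adjoin ℂ (Set.range (xm (fun i : Fin 4 => α (σ (X i.castSucc))) (α (X 4)) a b e)) = R at hmem ⊢
    let z0 : R := ⟨_, hmem 0⟩
    let z1 : R := ⟨_, hmem 1⟩
    let c0 : Polynomial R := Polynomial.C (algebraMap ℂ R (e 0)) * Polynomial.X ^ 3 +
      Polynomial.C (algebraMap ℂ R (b 0)) * Polynomial.X ^ 2 + Polynomial.C (algebraMap ℂ R (a 0)) * Polynomial.X + Polynomial.C (-z0)
    let c1 : Polynomial R := Polynomial.C (algebraMap ℂ R (e 1)) * Polynomial.X ^ 3 +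
      Polynomial.C (algebraMap ℂ R (b 1)) * Polynomial.X ^ 2 + Polynomial.C (algebraMap ℂ R (a 1)) * Polynomial.X + Polynomial.C (-z1)
    have hd0 : c0.degree ≤ 3 := Polynomial.degree_cubic_le
    have hd1 : c1.degree ≤ 3 := Polynomial.degree_cubic_le
    have l0 : c0.degree < (n0 : WithBot ℕ) := lt_of_le_of_lt hd0 (by
      have : 3 < n0 := by omega
      exact_mod_cast this)
    have l1 : c1.degree < (n1 : WithBot ℕ) := lt_of_le_of_lt hd1 (by
      have : 3 < n1 := by omega
      exact_mod_cast this)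
    have hz0 : (z0 : A) = α (X 0) + α (X 4) ^ n0 + C (a 0) * α (X 4) + C (b 0) * α (X 4) ^ 2 + C (e 0) * α (X 4) ^ 3 := by
      show xm (fun i : Fin 4 => α (σ (X i.castSucc))) (α (X 4)) a b e 0 = _
      unfold xm
      beta_reduce
      rw [hσ, map_add]
      have h1 : s (Fin.castSucc 0) = X 4 ^ n0 := rfl
      rw [h1, map_pow]
      rfl
    have hz1 : (z1 : A) = α (X 1) + α (X 4) ^ n1 + C (a 1) * α (X 4) + C (b 1) * α (X 4) ^ 2 + C (e 1) * α (X 4) ^ 3 := by
      show xm (fun i : Fin 4 => α (σ (X i.castSucc))) (α (X 4)) a b e 1 = _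
      unfold xm
      beta_reduce
      rw [hσ, map_add]
      have h1 : s (Fin.castSucc 1) = X 4 ^ n1 := rfl
      rw [h1, map_pow]
      rfl
    have haR : ∀ w : ℂ, algebraMap R A (algebraMap ℂ R w) = C w := fun w => rfl
    have e0 : (Polynomial.X ^ n0 + c0).natDegree = n0 := by
      rw [Polynomial.natDegree_add_eq_left_of_degree_lt (by rw [Polynomial.degree_X_pow]; exact l0), Polynomial.natDegree_X_pow]
    have e1 : (Polynomial.X ^ n1 + c1).natDegree = n1 := by
      rw [Polynomial.natDegree_add_eq_left_of_degree_lt (by rw [Polynomial.degree_X_pow]; exact l1), Polynomial.natDegree_X_pow]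
    refine prep2_integral R (α (X 4)) (Polynomial.X ^ n0 + c0) (Polynomial.X ^ n1 + c1) n0 n1
      (Polynomial.monic_X_pow_add l0) (Polynomial.monic_X_pow_add l1)
      e0 e1 F hF (by omega) (by omega) ?_
    rw [← hz]
    congr 2
    have q0 : Polynomial.aeval (α (X 4)) (Polynomial.X ^ n0 + c0) = -α (X 0) := by
      simp only [c0, map_add, map_mul, map_pow, Polynomial.aeval_X, Polynomial.aeval_C, haR, map_neg]
      have : algebraMap R A z0 = (z0 : A) := rfl
      rw [this, hz0]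
      ring
    have q1 : Polynomial.aeval (α (X 4)) (Polynomial.X ^ n1 + c1) = -α (X 1) := by
      simp only [c1, map_add, map_mul, map_pow, Polynomial.aeval_X, Polynomial.aeval_C, haR, map_neg]
      have : algebraMap R A z1 = (z1 : A) := rfl
      rw [this, hz1]
      ring
    rw [q0, q1]
/-- good coordinates (module G output) -/
structure Good (x : Fin 4 → A) (t : A) : Prop where
  gen : Algebra.adjoin ℂ (Set.range x ∪ {t}) = ⊤
  int : IsIntegral (Algebra.adjoin ℂ (Set.range x)) t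
  imm : ∀ p ξ : Fin 2 → ℂ, (∀ i, D (x i) p ξ = 0) → ξ = 0
  no3 : ∀ p q r : Fin 2 → ℂ, p ≠ q → p ≠ r → q ≠ r → (∀ i, eval p (x i) = eval q (x i)) →
    ¬ (∀ i, eval p (x i) = eval r (x i))
  trans : ∀ p q ξ η : Fin 2 → ℂ, p ≠ q → (∀ i, eval p (x i) = eval q (x i)) →
    (∀ i, D (x i) p ξ = D (x i) q η) → ξ = 0 ∧ η = 0
  cnt : {p : Fin 2 → ℂ | ∃ q, q ≠ p ∧ ∀ i, eval p (x i) = eval q (x i)}.Countable

theorem taylor1 (p : Fin 2 → ℂ) (b : A) :
    b - C (eval p b) - ∑ j, C (eval p (pderiv j b)) * (X j - C (p j)) ∈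
      (RingHom.ker (eval p)) ^ 2 := by
  have hz : ∀ j : Fin 2, (X j - C (p j) : A) ∈ RingHom.ker (eval p) := by
    intro j
    rw [RingHom.mem_ker]; simp
  induction b using MvPolynomial.induction_on with
  | C a => simp
  | add f g hf hg =>
    have := Ideal.add_mem _ hf hg
    convert this using 1
    simp only [map_add, add_mul, Finset.sum_add_distrib]
    ring
  | mul_X f i hf =>
    have h1 := Ideal.mul_mem_right (X i : A) _ hf
    have h2 : (∑ j, C (eval p (pderiv j f)) * ((X j - C (p j)) * (X i - C (p i))) : A) ∈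
        (RingHom.ker (eval p)) ^ 2 := by
      apply Ideal.sum_mem
      intro j _
      apply Ideal.mul_mem_left
      rw [pow_two]
      exact Ideal.mul_mem_mul (hz j) (hz i)
    have h3 := Ideal.add_mem _ h1 h2
    convert h3 using 1
    simp only [Fin.sum_univ_two, Derivation.leibniz, smul_eq_mul, map_add, map_mul, eval_X,
      pderiv_X]
    fin_cases i <;> simp [Pi.single_apply] <;> ring

theorem grad_span (x : Fin 4 → A) (p : Fin 2 → ℂ)
    (himm : ∀ ξ : Fin 2 → ℂ, (∀ i, ∑ j, ξ j * eval p (pderiv j (x i)) = 0) → ξ = 0)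
    (v : Fin 2 → ℂ) : ∃ c : Fin 4 → ℂ, ∀ j, v j = ∑ i, c i * eval p (pderiv j (x i)) := by
  let f : (Fin 2 → ℂ) →ₗ[ℂ] (Fin 4 → ℂ) :=
    { toFun := fun ξ i => ∑ j, ξ j * eval p (pderiv j (x i))
      map_add' := by intro a b; ext i; simp only [Pi.add_apply, add_mul, Finset.sum_add_distrib]
      map_smul' := by
        intro a b; ext i
        simp only [Pi.smul_apply, smul_eq_mul, RingHom.id_apply, Finset.mul_sum, mul_assoc] }
  have hf : LinearMap.ker f = ⊥ := by
    rw [LinearMap.ker_eq_bot']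
    intro ξ hξ
    exact himm ξ fun i => congrFun hξ i
  obtain ⟨g, hg⟩ := LinearMap.exists_leftInverse_of_injective f hf
  refine ⟨fun i => ∑ l, v l * g (Pi.single i 1) l, fun j => ?_⟩
  have h1 : g (f (Pi.single j 1)) = Pi.single j 1 := by
    have := congrArg (fun F : (Fin 2 → ℂ) →ₗ[ℂ] (Fin 2 → ℂ) => F (Pi.single j 1)) hg
    simpa using this
  have h2 : f (Pi.single j 1) = ∑ i, (eval p (pderiv j (x i))) • (Pi.single i 1 : Fin 4 → ℂ) := by
    ext i
    have : f (Pi.single j 1) i = eval p (pderiv j (x i)) := by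
      show ∑ l, (Pi.single j 1 : Fin 2 → ℂ) l * eval p (pderiv l (x i)) = _
      rw [Finset.sum_eq_single j]
      · simp
      · intro l _ hl; simp [hl]
      · intro h; exact absurd (Finset.mem_univ _) h
    rw [this]
    simp [Finset.sum_apply, Pi.single_apply]
  rw [h2, map_sum] at h1
  have h3 : v j = ∑ l, v l * (Pi.single j 1 : Fin 2 → ℂ) l := by
    rw [Finset.sum_eq_single j]
    · simp
    · intro l _ hl; simp [hl]
    · intro h; exact absurd (Finset.mem_univ _) h
  rw [h3, ← h1]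
  simp only [map_smul, Finset.sum_apply, Pi.smul_apply, smul_eq_mul, Finset.mul_sum, Finset.sum_mul]
  rw [Finset.sum_comm]
  refine Finset.sum_congr rfl fun i _ => Finset.sum_congr rfl fun l _ => by ring

/-- if `p` is the only point with its `x`-image and the map is immersive at `p`, the ideal of `p` is generated by the `x i - x i(p)` -/
theorem f1a (x : Fin 4 → A) (p : Fin 2 → ℂ)
    (himm : ∀ ξ : Fin 2 → ℂ, (∀ i, ∑ j, ξ j * eval p (pderiv j (x i)) = 0) → ξ = 0)
    (huniq : ∀ q : Fin 2 → ℂ, (∀ i, eval p (x i) = eval q (x i)) → q = p) :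
    ∀ a : A, eval p a = 0 → a ∈ Ideal.span (Set.range fun i => x i - C (eval p (x i))) := by
  set J : Ideal A := Ideal.span (Set.range fun i => x i - C (eval p (x i))) with hJ
  set m : Ideal A := RingHom.ker (eval p) with hm
  have hrad : m ≤ J.radical := by
    rw [← vanishingIdeal_zeroLocus_eq_radical (K := ℂ) J]
    intro a ha q hq
    have hqp : q = p := by
      apply huniq
      intro i
      have h := hq (x i - C (eval p (x i))) (Ideal.subset_span ⟨i, rfl⟩)
      rw [map_sub, aeval_C, sub_eq_zero] at h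
      rw [MvPolynomial.aeval_eq_eval] at h
      simpa using h.symm
    rw [hqp]
    rw [hm, RingHom.mem_ker] at ha
    rw [MvPolynomial.aeval_eq_eval]
    simpa using ha
  obtain ⟨N, hN⟩ := Ideal.exists_pow_le_of_le_radical_of_fg hrad (IsNoetherian.noetherian m)
  have h2 : m ≤ J ⊔ m ^ 2 := by
    intro a ha
    obtain ⟨c, hc⟩ := grad_span x p himm (fun j => eval p (pderiv j a))
    set s : A := ∑ i, C (c i) * (x i - C (eval p (x i))) with hs
    have hsJ : s ∈ J := by
      apply Ideal.sum_mem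
      intro i _
      exact Ideal.mul_mem_left _ _ (Ideal.subset_span ⟨i, rfl⟩)
    have ht := taylor1 p (a - s)
    have e1 : eval p (a - s) = 0 := by
      rw [hm, RingHom.mem_ker] at ha
      rw [map_sub, ha, hs]
      simp
    have e2 : ∀ j, eval p (pderiv j (a - s)) = 0 := by
      intro j
      rw [map_sub, map_sub, hc j, hs]
      simp [Derivation.leibniz]
    rw [e1] at ht
    simp only [e2, C_0, zero_mul, Finset.sum_const_zero, sub_zero] at ht
    have : a = s + (a - s) := by ring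
    rw [this]
    exact Submodule.add_mem_sup hsJ ht
  have h3 : ∀ k : ℕ, m ≤ J ⊔ m ^ (k + 1) := by
    intro k
    induction k with
    | zero => rw [zero_add, pow_one]; exact le_sup_right
    | succ k ih =>
      refine ih.trans (sup_le le_sup_left ?_)
      calc m ^ (k + 1) = m ^ k * m := pow_succ _ _
        _ ≤ m ^ k * (J ⊔ m ^ 2) := Ideal.mul_mono_right h2
        _ = m ^ k * J ⊔ m ^ k * m ^ 2 := Ideal.mul_sup _ _ _
        _ ≤ J ⊔ m ^ (k + 1 + 1) := by
          apply sup_le_sup Ideal.mul_le_right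
          rw [← pow_add]
  intro a ha
  have h4 : m ≤ J := (h3 N).trans (sup_le le_rfl ((Ideal.pow_le_pow_right (Nat.le_succ N)).trans hN))
  exact h4 ha
theorem f1b (x : Fin 4 → A) (t : A) (gen : Algebra.adjoin ℂ (insert t (Set.range x)) = ⊤)
    (int : IsIntegral (Algebra.adjoin ℂ (Set.range x)) t) (p : Fin 2 → ℂ)
    (hmp : ∀ a : A, eval p a = 0 → a ∈ Ideal.span (Set.range fun i => x i - C (eval p (x i)))) :
    ∃ s : A, eval p s ≠ 0 ∧ ∀ a : A, s * a ∈ Algebra.adjoin ℂ (Set.range x) := by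
  classical
  set B := Algebra.adjoin ℂ (Set.range x) with hB
  let ev : B →+* ℂ := (eval p).comp B.val.toRingHom
  let n : Ideal B := RingHom.ker ev
  have hfin : (⊤ : Submodule B A).FG := by
    have h1 : (Algebra.adjoin B ({t} : Set A)).toSubmodule.FG := int.fg_adjoin_singleton
    have h2 : Algebra.adjoin B ({t} : Set A) = ⊤ := by
      have h3 := Algebra.adjoin_union_eq_adjoin_adjoin ℂ (Set.range x) ({t} : Set A)
      rw [Set.union_comm, Set.singleton_union, gen] at h3
      rw [eq_top_iff]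
      intro a _
      have h4 : a ∈ (Algebra.adjoin B ({t} : Set A)).restrictScalars ℂ := by
        rw [← h3]; trivial
      exact h4
    rw [h2] at h1
    simpa using h1
  have hclose : ∀ z ∈ n • (⊤ : Submodule B A), ∀ a : A, a * z ∈ n • (⊤ : Submodule B A) := by
    intro z hz a
    induction hz using Submodule.smul_induction_on' with
    | smul r hr m hm =>
      rw [mul_smul_comm]
      exact Submodule.smul_mem_smul hr trivial
    | add u hu v hv h1 h2 =>
      rw [mul_add]
      exact Submodule.add_mem _ h1 h2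
  have hle : ∀ z ∈ Ideal.span (Set.range fun i => x i - C (eval p (x i))),
      z ∈ n • (⊤ : Submodule B A) := by
    intro z hz
    induction hz using Submodule.span_induction with
    | mem z hz =>
      obtain ⟨i, rfl⟩ := hz
      have hmem : x i - C (eval p (x i)) ∈ B := by
        apply Subalgebra.sub_mem
        · exact Algebra.subset_adjoin ⟨i, rfl⟩
        · exact B.algebraMap_mem (eval p (x i))
      have h1 : (⟨x i - C (eval p (x i)), hmem⟩ : B) ∈ n := by
        rw [RingHom.mem_ker]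
        show eval p (x i - C (eval p (x i))) = 0
        simp
      have h2 : (⟨x i - C (eval p (x i)), hmem⟩ : B) • (1 : A) = x i - C (eval p (x i)) := by
        rw [Algebra.smul_def, mul_one]; rfl
      show x i - C (eval p (x i)) ∈ n • (⊤ : Submodule B A)
      rw [← h2]
      exact Submodule.smul_mem_smul h1 trivial
    | zero => exact Submodule.zero_mem _
    | add u v _ _ h1 h2 => exact Submodule.add_mem _ h1 h2
    | smul a u _ h1 => exact hclose u h1 a
  have hsup : (⊤ : Submodule B A) ≤ Submodule.span B {(1 : A)} ⊔ n • (⊤ : Submodule B A) := by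
    intro a _
    have h1 : a = C (eval p a) + (a - C (eval p a)) := by ring
    rw [h1]
    apply Submodule.add_mem_sup
    · have h2 : (algebraMap ℂ B (eval p a)) • (1 : A) = C (eval p a) := by
        rw [Algebra.smul_def, mul_one]; rfl
      rw [← h2]
      exact Submodule.smul_mem _ _ (Submodule.mem_span_singleton_self 1)
    · apply hle
      apply hmp
      simp
  obtain ⟨r, hr1, hr2⟩ := Submodule.exists_sub_one_mem_and_smul_le_of_fg_of_le_sup hfin le_rfl hsup
  refine ⟨(r : A), ?_, ?_⟩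
  · have h1 : ev (r - 1) = 0 := hr1
    rw [map_sub, map_one, sub_eq_zero] at h1
    have h2 : eval p (r : A) = 1 := h1
    rw [h2]; exact one_ne_zero
  · intro a
    have h1 : r • a ∈ Submodule.span B {(1 : A)} := hr2 (Submodule.smul_mem_pointwise_smul a r ⊤ trivial)
    obtain ⟨b, hb⟩ := Submodule.mem_span_singleton.1 h1
    rw [Algebra.smul_def, mul_one, Algebra.smul_def] at hb
    have h2 : (r : A) * a = (b : A) := hb.symm
    rw [h2]
    exact b.2
theorem f2a (c : Ideal (Polynomial (Polynomial ℂ))) :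
    (∃ u : Polynomial ℂ, u ≠ 0 ∧ Polynomial.C u ∈ c) ∨
    {z : ℂ | ¬ ∃ w : ℂ, ∀ f ∈ c, (f.map (Polynomial.evalRingHom z)).eval w = 0}.Finite := by
  classical
  by_cases hc : c = ⊥
  · right
    refine Set.finite_empty.subset fun z hz => hz ⟨0, fun f hf => ?_⟩
    rw [hc, Ideal.mem_bot] at hf
    simp [hf]
  obtain ⟨f0, hf0, hf0'⟩ := Submodule.exists_mem_ne_zero_of_ne_bot hc
  obtain ⟨h, ⟨hh, h0⟩, hmin⟩ := WellFounded.has_min
    (measure (Polynomial.natDegree : Polynomial (Polynomial ℂ) → ℕ)).wf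
    {f | f ∈ c ∧ f ≠ 0} ⟨f0, hf0, hf0'⟩
  have hmin' : ∀ f ∈ c, f ≠ 0 → h.natDegree ≤ f.natDegree :=
    fun f hf hf0 => not_lt.1 (hmin f ⟨hf, hf0⟩)
  by_cases hd : h.natDegree = 0
  · left
    rw [Polynomial.natDegree_eq_zero] at hd
    obtain ⟨u, rfl⟩ := hd
    exact ⟨u, fun hu => h0 (by rw [hu, Polynomial.C_0]), hh⟩
  right
  have ha : h.leadingCoeff ≠ 0 := Polynomial.leadingCoeff_ne_zero.2 h0
  have key : ∀ n : ℕ, ∀ f ∈ c, f.degree < n → ∃ (k : ℕ) (q : Polynomial (Polynomial ℂ)),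
      Polynomial.C h.leadingCoeff ^ k * f = q * h := by
    intro n
    induction n with
    | zero =>
      intro f hf hdeg
      have : f = 0 := by
        rw [← Polynomial.degree_eq_bot]
        exact Nat.WithBot.lt_zero_iff.1 (by simpa using hdeg)
      exact ⟨0, 0, by simp [this]⟩
    | succ n ih =>
      intro f hf hdeg
      by_cases hf0 : f = 0
      · exact ⟨0, 0, by simp [hf0]⟩
      have hle := hmin' f hf hf0
      have hb : f.leadingCoeff ≠ 0 := Polynomial.leadingCoeff_ne_zero.2 hf0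
      have hg : Polynomial.C h.leadingCoeff * f - (Polynomial.C f.leadingCoeff *
          Polynomial.X ^ (f.natDegree - h.natDegree)) * h ∈ c :=
        c.sub_mem (c.mul_mem_left _ hf) (c.mul_mem_left _ hh)
      have hd1 : (Polynomial.C h.leadingCoeff * f).degree = f.degree :=
        Polynomial.degree_C_mul ha
      have hd2 : ((Polynomial.C f.leadingCoeff *
          Polynomial.X ^ (f.natDegree - h.natDegree)) * h).degree = f.degree := by
        rw [Polynomial.degree_mul, Polynomial.degree_C_mul_X_pow _ hb,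
          Polynomial.degree_eq_natDegree h0, Polynomial.degree_eq_natDegree hf0, ← Nat.cast_add,
          Nat.sub_add_cancel hle]
      have hglt := Polynomial.degree_sub_lt (hd1.trans hd2.symm)
        (mul_ne_zero (Polynomial.C_ne_zero.2 ha) hf0)
        (by
          rw [Polynomial.leadingCoeff_mul, Polynomial.leadingCoeff_mul,
            Polynomial.leadingCoeff_mul, Polynomial.leadingCoeff_C, Polynomial.leadingCoeff_C,
            Polynomial.leadingCoeff_X_pow]
          ring)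
      rw [hd1] at hglt
      have hlt : (Polynomial.C h.leadingCoeff * f - (Polynomial.C f.leadingCoeff *
          Polynomial.X ^ (f.natDegree - h.natDegree)) * h).degree < (n : WithBot ℕ) := by
        refine lt_of_lt_of_le hglt ?_
        rw [Polynomial.degree_eq_natDegree hf0] at hdeg ⊢
        have h5 : f.natDegree < n + 1 := by exact_mod_cast hdeg
        have h6 : f.natDegree ≤ n := by omega
        exact_mod_cast h6
      obtain ⟨k, q, e⟩ := ih _ hg hlt
      refine ⟨k + 1, q + Polynomial.C h.leadingCoeff ^ k * (Polynomial.C f.leadingCoeff *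
          Polynomial.X ^ (f.natDegree - h.natDegree)), ?_⟩
      linear_combination e
  refine (Polynomial.finite_setOf_isRoot ha).subset fun z hz => ?_
  by_contra hne
  apply hz
  have hne' : (Polynomial.evalRingHom z) h.leadingCoeff ≠ 0 := hne
  have hnd : (h.map (Polynomial.evalRingHom z)).natDegree = h.natDegree :=
    Polynomial.natDegree_map_of_leadingCoeff_ne_zero _ hne'
  have hdeg : (h.map (Polynomial.evalRingHom z)).degree ≠ 0 := by
    intro h1
    apply hd
    rw [← hnd]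
    exact Polynomial.natDegree_eq_of_degree_eq_some h1
  obtain ⟨w, hw⟩ := IsAlgClosed.exists_root _ hdeg
  refine ⟨w, fun f hf => ?_⟩
  obtain ⟨k, q, e⟩ := key (f.natDegree + 1) f hf
    (lt_of_le_of_lt Polynomial.degree_le_natDegree (by exact_mod_cast Nat.lt_succ_self _))
  have e2 := congrArg (fun p => (p.map (Polynomial.evalRingHom z)).eval w) e
  simp only [Polynomial.map_mul, Polynomial.map_pow, Polynomial.map_C, Polynomial.eval_mul,
    Polynomial.eval_pow, Polynomial.eval_C] at e2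
  rw [show (h.map (Polynomial.evalRingHom z)).eval w = 0 from hw, mul_zero] at e2
  exact (mul_eq_zero.1 e2).resolve_left (pow_ne_zero _ hne')
/-- (auxiliary) substitution `X ↦ X i`, `Y ↦ X j` -/
noncomputable def psi37550 (i j : Fin 2) : Polynomial (Polynomial ℂ) →+* A :=
  Polynomial.eval₂RingHom (Polynomial.aeval (X i : A) : Polynomial ℂ →ₐ[ℂ] A).toRingHom (X j)

theorem psi_C37550 (i j : Fin 2) (u : Polynomial ℂ) :
    psi37550 i j (Polynomial.C u) = Polynomial.aeval (X i : A) u := by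
  simp [psi37550]

theorem psi_X37550 (i j : Fin 2) : psi37550 i j Polynomial.X = X j := by
  simp [psi37550]

theorem psi_surj37550 (i j : Fin 2) (hij : i ≠ j) : Function.Surjective (psi37550 i j) := by
  intro g
  induction g using MvPolynomial.induction_on with
  | C a => exact ⟨Polynomial.C (Polynomial.C a), by rw [psi_C37550]; simp⟩
  | add p q hp hq =>
    obtain ⟨p', rfl⟩ := hp
    obtain ⟨q', rfl⟩ := hq
    exact ⟨p' + q', map_add _ _ _⟩
  | mul_X p k hp =>
    obtain ⟨p', rfl⟩ := hp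
    by_cases hk : k = i
    · subst hk
      exact ⟨p' * Polynomial.C Polynomial.X, by rw [map_mul, psi_C37550]; simp⟩
    · have hkj : k = j := by omega
      subst hkj
      exact ⟨p' * Polynomial.X, by rw [map_mul, psi_X37550]⟩

theorem eval_aeval37550 (p : Fin 2 → ℂ) (i : Fin 2) (u : Polynomial ℂ) :
    eval p (Polynomial.aeval (X i : A) u) = u.eval (p i) := by
  rw [Polynomial.aeval_def, Polynomial.hom_eval₂]
  have : (eval p : A →+* ℂ).comp (algebraMap ℂ A) = RingHom.id ℂ := by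
    ext a
    simp
  rw [this, eval_X, Polynomial.eval₂_id]

theorem eval_psi37550 (i j : Fin 2) (p : Fin 2 → ℂ) (f : Polynomial (Polynomial ℂ)) :
    eval p (psi37550 i j f) = (f.map (Polynomial.evalRingHom (p i))).eval (p j) := by
  have h : (eval p : A →+* ℂ).comp (psi37550 i j) =
      (Polynomial.evalRingHom (p j)).comp (Polynomial.mapRingHom (Polynomial.evalRingHom (p i))) := by
    apply Polynomial.ringHom_ext
    · intro u
      rw [RingHom.comp_apply, psi_C37550, eval_aeval37550]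
      simp
    · rw [RingHom.comp_apply, psi_X37550]
      simp
  exact congrArg (fun g : Polynomial (Polynomial ℂ) →+* ℂ => g f) h

theorem key37550 (c : Ideal A) (h : {p : Fin 2 → ℂ | ∀ f ∈ c, eval p f = 0}.Countable)
    (i j : Fin 2) (hij : i ≠ j) :
    ∃ u : Polynomial ℂ, u ≠ 0 ∧ Polynomial.aeval (X i : A) u ∈ c := by
  rcases f2a (c.comap (psi37550 i j)) with ⟨u, hu, huc⟩ | hfin
  · refine ⟨u, hu, ?_⟩
    rw [Ideal.mem_comap, psi_C37550] at huc
    exact huc
  · exfalso
    apply not_countable_complex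
    refine ((hfin.countable).union (h.image (fun p => p i))).mono ?_
    intro z _
    by_cases hz : ∃ w : ℂ, ∀ f ∈ c.comap (psi37550 i j),
        (f.map (Polynomial.evalRingHom z)).eval w = 0
    · right
      obtain ⟨w, hw⟩ := hz
      refine ⟨fun k => if k = i then z else w, ?_, by simp⟩
      intro g hg
      obtain ⟨f, rfl⟩ := psi_surj37550 i j hij g
      rw [eval_psi37550]
      simp only [if_true, if_neg hij.symm]
      exact hw f hg
    · left
      exact hz

theorem f2b (c : Ideal A) (h : {p : Fin 2 → ℂ | ∀ f ∈ c, eval p f = 0}.Countable) :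
    {p : Fin 2 → ℂ | ∀ f ∈ c, eval p f = 0}.Finite := by
  have hk : ∀ i : Fin 2, ∃ u : Polynomial ℂ, u ≠ 0 ∧ Polynomial.aeval (X i : A) u ∈ c := by
    intro i
    exact key37550 c h i (i + 1) (by fin_cases i <;> decide)
  choose U hU0 hUc using hk
  refine (Set.Finite.pi' (t := fun i : Fin 2 => {z : ℂ | (U i).IsRoot z})
    (fun i => Polynomial.finite_setOf_isRoot (hU0 i))).subset ?_
  intro p hp i
  have := hp _ (hUc i)
  rw [eval_aeval37550] at this
  exact this
section asm

/-- the triangular automorphism -/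
noncomputable def tri (a b e : Fin 4 → ℂ) : MvPolynomial (Fin 5) ℂ →ₐ[ℂ] MvPolynomial (Fin 5) ℂ :=
  aeval (Fin.lastCases (X (Fin.last 4)) (fun i : Fin 4 => X i.castSucc + C (a i) * X (Fin.last 4) +
    C (b i) * X (Fin.last 4) ^ 2 + C (e i) * X (Fin.last 4) ^ 3))

theorem tri_last (a b e : Fin 4 → ℂ) : tri a b e (X (Fin.last 4)) = X (Fin.last 4) := by
  rw [tri, aeval_X, Fin.lastCases_last]

theorem tri_cast (a b e : Fin 4 → ℂ) (i : Fin 4) : tri a b e (X i.castSucc) =
    X i.castSucc + C (a i) * X (Fin.last 4) + C (b i) * X (Fin.last 4) ^ 2 + C (e i) * X (Fin.last 4) ^ 3 := by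
  rw [tri, aeval_X, Fin.lastCases_castSucc]

theorem tri_C (a b e : Fin 4 → ℂ) (r : ℂ) : tri a b e (C r) = C r :=
  (tri a b e).commutes r

theorem tri_comp (a b e : Fin 4 → ℂ) : (tri a b e).comp (tri (-a) (-b) (-e)) = AlgHom.id ℂ _ := by
  apply MvPolynomial.algHom_ext
  intro i
  refine Fin.lastCases ?_ (fun i => ?_) i
  · rw [AlgHom.comp_apply, tri_last, tri_last, AlgHom.id_apply]
  · rw [AlgHom.comp_apply, tri_cast, AlgHom.id_apply, map_add, map_add, map_add, map_mul, map_mul, map_mul, map_pow, map_pow,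
      tri_last, tri_cast, tri_C, tri_C, tri_C]
    simp only [Pi.neg_apply, map_neg]
    ring

noncomputable def triE (a b e : Fin 4 → ℂ) : MvPolynomial (Fin 5) ℂ ≃ₐ[ℂ] MvPolynomial (Fin 5) ℂ :=
  AlgEquiv.ofAlgHom (tri a b e) (tri (-a) (-b) (-e)) (tri_comp a b e) (by
    have := tri_comp (-a) (-b) (-e)
    simpa using this)

theorem gen_of (α : MvPolynomial (Fin 5) ℂ →ₐ[ℂ] A) (hα : Function.Surjective α) :
    Algebra.adjoin ℂ (Set.range (fun i : Fin 4 => α (X i.castSucc)) ∪ {α (X (Fin.last 4))}) = ⊤ := by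
  rw [eq_top_iff]
  rintro a -
  obtain ⟨P, rfl⟩ := hα a
  have : P ∈ Algebra.adjoin ℂ (Set.range (X : Fin 5 → MvPolynomial (Fin 5) ℂ)) := by
    rw [MvPolynomial.adjoin_range_X]; trivial
  have h2 : α P ∈ (Algebra.adjoin ℂ (Set.range (X : Fin 5 → MvPolynomial (Fin 5) ℂ))).map α := ⟨P, this, rfl⟩
  rw [AlgHom.map_adjoin] at h2
  refine Algebra.adjoin_mono ?_ h2
  rintro _ ⟨_, ⟨i, rfl⟩, rfl⟩
  refine Fin.lastCases ?_ (fun i => ?_) i
  · right; rfl
  · left; exact ⟨i, rfl⟩

theorem eval_eq_of_adjoin (x : Fin 4 → A) (p q : Fin 2 → ℂ) (h : ∀ i, eval p (x i) = eval q (x i)) (a : A)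
    (ha : a ∈ Algebra.adjoin ℂ (Set.range x)) : eval p a = eval q a := by
  induction ha using Algebra.adjoin_induction with
  | mem a ha => obtain ⟨i, rfl⟩ := ha; exact h i
  | algebraMap r => simp [MvPolynomial.algebraMap_eq]
  | add a b _ _ ha hb => simp [ha, hb]
  | mul a b _ _ ha hb => simp [ha, hb]

theorem fin_of_cnt (x : Fin 4 → A) (t : A) (gen : Algebra.adjoin ℂ (Set.range x ∪ {t}) = ⊤)
    (int : IsIntegral (Algebra.adjoin ℂ (Set.range x)) t)
    (imm : ∀ p ξ : Fin 2 → ℂ, (∀ i, D (x i) p ξ = 0) → ξ = 0)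
    (cnt : {p : Fin 2 → ℂ | ∃ q, q ≠ p ∧ ∀ i, eval p (x i) = eval q (x i)}.Countable) :
    {p : Fin 2 → ℂ | ∃ q, q ≠ p ∧ ∀ i, eval p (x i) = eval q (x i)}.Finite := by
  have hsep : Sep x t := sep_of x t gen
  let c : Ideal A :=
    { carrier := {s | ∀ a, s * a ∈ Algebra.adjoin ℂ (Set.range x)}
      add_mem' := by
        intro s s' hs hs' a
        rw [add_mul]; exact add_mem (hs a) (hs' a)
      zero_mem' := by intro a; simp
      smul_mem' := by
        intro r s hs a
        have := hs (r * a)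
        rw [smul_eq_mul]
        have e : r * s * a = s * (r * a) := by ring
        rw [e]; exact this }
  have key : {p : Fin 2 → ℂ | ∃ q, q ≠ p ∧ ∀ i, eval p (x i) = eval q (x i)} = {p | ∀ f ∈ c, eval p f = 0} := by
    ext p
    constructor
    · rintro ⟨q, hqp, hq⟩ f hf
      have h1 := eval_eq_of_adjoin x p q hq _ (hf 1)
      have h2 := eval_eq_of_adjoin x p q hq _ (hf t)
      simp only [mul_one, map_mul] at h1 h2
      by_contra hne
      rw [← h1] at h2
      have h3 : eval p t = eval q t := mul_left_cancel₀ hne h2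
      exact hqp (hsep p q hq h3).symm
    · intro hp
      by_contra hnot
      have huniq : ∀ q : Fin 2 → ℂ, (∀ i, eval p (x i) = eval q (x i)) → q = p := by
        intro q hq
        by_contra hne
        exact hnot ⟨q, hne, hq⟩
      have h1 := f1a x p (fun ξ h => imm p ξ h) huniq
      have gen' : Algebra.adjoin ℂ (insert t (Set.range x)) = ⊤ := by
        rw [← gen]; congr 1; rw [Set.union_singleton]
      obtain ⟨s, hs, hs2⟩ := f1b x t gen' int p h1
      exact hs (hp s hs2)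
  rw [key] at cnt ⊢
  exact f2b c cnt

theorem good_main (α : MvPolynomial (Fin 5) ℂ →ₐ[ℂ] A) (hα : Function.Surjective α) :
    ∃ σ : MvPolynomial (Fin 5) ℂ ≃ₐ[ℂ] MvPolynomial (Fin 5) ℂ,
      Good (fun i : Fin 4 => α (σ (X i.castSucc))) (α (σ (X (Fin.last 4)))) := by
  obtain ⟨σ1, h1⟩ := prep1 α hα
  have hα1 : Function.Surjective (α.comp (σ1 : MvPolynomial (Fin 5) ℂ →ₐ[ℂ] MvPolynomial (Fin 5) ℂ)) :=
    hα.comp σ1.surjective
  obtain ⟨σ2, h2, h3⟩ := prep2 (α.comp (σ1 : MvPolynomial (Fin 5) ℂ →ₐ[ℂ] MvPolynomial (Fin 5) ℂ)) hα1 h1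
  set α2 : MvPolynomial (Fin 5) ℂ →ₐ[ℂ] A :=
    (α.comp (σ1 : MvPolynomial (Fin 5) ℂ →ₐ[ℂ] MvPolynomial (Fin 5) ℂ)).comp
      (σ2 : MvPolynomial (Fin 5) ℂ →ₐ[ℂ] MvPolynomial (Fin 5) ℂ) with hα2d
  have hα2 : Function.Surjective α2 := hα1.comp σ2.surjective
  set x : Fin 4 → A := fun i => α2 (X i.castSucc) with hx
  set t : A := α2 (X (Fin.last 4)) with ht
  have h2' : P1 x t := h2
  have h3' : P2 x t := h3
  have hgen : Algebra.adjoin ℂ (Set.range x ∪ {t}) = ⊤ := gen_of α2 hα2
  have hsep := sep_of x t hgen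
  have himm := imm_of x t hgen
  obtain ⟨K, hK, a, b, e, hxK, htK, hind⟩ := g_0 x t
  have hcast : ∀ i : Fin 4, α (((triE a b e).trans (σ2.trans σ1)) (X i.castSucc)) = xm x t a b e i := by
    intro i
    have e1 : α (((triE a b e).trans (σ2.trans σ1)) (X i.castSucc)) = α2 (tri a b e (X i.castSucc)) := rfl
    rw [e1, tri_cast]
    have hC : ∀ r : ℂ, α2 (C r) = C r := fun r => α2.commutes r
    simp only [map_add, map_mul, map_pow, hC]
    rfl
  have hlast : α (((triE a b e).trans (σ2.trans σ1)) (X (Fin.last 4))) = t := by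
    have e1 : α (((triE a b e).trans (σ2.trans σ1)) (X (Fin.last 4))) = α2 (tri a b e (X (Fin.last 4))) := rfl
    rw [e1, tri_last]
  have hfun : (fun i : Fin 4 => α (((triE a b e).trans (σ2.trans σ1)) (X i.castSucc))) = xm x t a b e := by
    funext i; exact hcast i
  have hgen2 : Algebra.adjoin ℂ (Set.range (xm x t a b e) ∪ {t}) = ⊤ := by
    have := gen_of (α.comp (((triE a b e).trans (σ2.trans σ1) : MvPolynomial (Fin 5) ℂ ≃ₐ[ℂ] MvPolynomial (Fin 5) ℂ) :
      MvPolynomial (Fin 5) ℂ →ₐ[ℂ] MvPolynomial (Fin 5) ℂ)) (hα.comp (AlgEquiv.surjective _))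
    have e2 : (fun i : Fin 4 => (α.comp (((triE a b e).trans (σ2.trans σ1) : MvPolynomial (Fin 5) ℂ ≃ₐ[ℂ] MvPolynomial (Fin 5) ℂ) :
      MvPolynomial (Fin 5) ℂ →ₐ[ℂ] MvPolynomial (Fin 5) ℂ)) (X i.castSucc)) = xm x t a b e := hfun
    have e3 : (α.comp (((triE a b e).trans (σ2.trans σ1) : MvPolynomial (Fin 5) ℂ ≃ₐ[ℂ] MvPolynomial (Fin 5) ℂ) :
      MvPolynomial (Fin 5) ℂ →ₐ[ℂ] MvPolynomial (Fin 5) ℂ)) (X (Fin.last 4)) = t := hlast
    rw [e2, e3] at this
    exact this
  refine ⟨(triE a b e).trans (σ2.trans σ1), ?_⟩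
  rw [hfun, hlast]
  exact
    { gen := hgen2
      int := h3' a b e
      imm := fun p ξ h => g_b x t hxK htK a b e hind himm p ξ h
      no3 := fun p q r hpq hpr hqr h1 h2 => g_c x t hxK htK a b e hind hsep p q r hpq hpr hqr h1 h2
      trans := by
        intro p q ξ η hpq h1 h2
        by_cases hne : D t p ξ ≠ 0 ∨ D t q η ≠ 0
        · exact (g_d1 x t hxK htK a b e hind hsep p q ξ η hpq h1 h2 hne).elim
        · push Not at hne
          exact g_d2 x t hxK htK a b e hind hsep himm h2' p q ξ η hpq h1 h2 hne.1 hne.2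
      cnt := g_e x t hxK htK a b e hind hsep }

end asm

/-- MODULE G, raw form (fields of `PL.GoodPos`) -/
theorem modG_raw (α : MvPolynomial (Fin 5) ℂ →ₐ[ℂ] A) (hα : Function.Surjective α) :
    ∃ θ : MvPolynomial (Fin 5) ℂ ≃ₐ[ℂ] MvPolynomial (Fin 5) ℂ,
      ∃ (x : Fin 4 → A) (t : A), x = (fun i : Fin 4 => α (θ (X (Fin.castSucc i)))) ∧ t = α (θ (X (Fin.last 4))) ∧
      Algebra.adjoin ℂ (insert t (Set.range x)) = ⊤ ∧
      IsIntegral (Algebra.adjoin ℂ (Set.range x)) t ∧
      (∀ p ξ : Fin 2 → ℂ, (∀ i, ∑ j, ξ j * eval p (pderiv j (x i)) = 0) → ξ = 0) ∧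
      (∀ p q r : Fin 2 → ℂ, (∀ i, eval p (x i) = eval q (x i)) →
        (∀ i, eval p (x i) = eval r (x i)) → p = q ∨ p = r ∨ q = r) ∧
      (∀ p q ξ η : Fin 2 → ℂ, p ≠ q → (∀ i, eval p (x i) = eval q (x i)) →
        (∀ i, ∑ j, ξ j * eval p (pderiv j (x i)) = ∑ j, η j * eval q (pderiv j (x i))) → ξ = 0 ∧ η = 0) ∧
      {p : Fin 2 → ℂ | ∃ q, q ≠ p ∧ ∀ i, eval p (x i) = eval q (x i)}.Finite := by
  obtain ⟨θ, h⟩ := good_main α hα
  refine ⟨θ, _, _, rfl, rfl, ?_, h.int, h.imm, ?_, h.trans, fin_of_cnt _ _ h.gen h.int h.imm h.cnt⟩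
  · rw [← h.gen]; congr 1; rw [Set.union_singleton]
  · intro p q r h1 h2
    by_contra hne
    push Not at hne
    exact h.no3 p q r hne.1 hne.2.1 hne.2.2 h1 h2

end Pool.Agent.Helper367.G5
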