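import Pool.Agent.Helper135.PL.Iface
import Pool.Agent.Helper367.PL.G
set_option autoImplicit false
open MvPolynomial

namespace PL

/-- MODULE G -/
theorem modG (α : MvPolynomial (Fin 5) ℂ →ₐ[ℂ] AA) (hα : Function.Surjective α) :
    ∃ θ : MvPolynomial (Fin 5) ℂ ≃ₐ[ℂ] MvPolynomial (Fin 5) ℂ,
      GoodPos (fun i : Fin 4 => α (θ (X (Fin.castSucc i)))) (α (θ (X (Fin.last 4)))) := by
  obtain ⟨θ, x, t, hx, ht, h1, h2, h3, h4, h5, h6⟩ := Pool.Agent.Helper367.G5.modG_raw α hα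
  refine ⟨θ, ?_⟩
  rw [← hx, ← ht]
  exact ⟨h1, h2, h3, h4, h5, h6⟩

end PL
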